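import Pool.Agent.Lib.MP_678664_lc.Kill

set_option autoImplicit false

namespace Pool.Agent.Lib.MP_678664_lc

open Finset

variable {n k b : ℕ}

/-- `R` pairwise disjoint members of a family -/
def ManyDisjoint (R : ℕ) (𝓓 : Set (Finset (Fin n))) : Prop :=
  ∃ 𝓔 : Finset (Finset (Fin n)), (∀ D ∈ 𝓔, D ∈ 𝓓) ∧
    (𝓔 : Set (Finset (Fin n))).PairwiseDisjoint id ∧ 𝓔.card = R

lemma hitting (𝓓 : Set (Finset (Fin n))) (b R : ℕ) (hne : ∀ D ∈ 𝓓, D.Nonempty)
    (hcard : ∀ D ∈ 𝓓, D.card ≤ b) :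
    ∃ T : Finset (Fin n), T.card ≤ R * b ∧
      (ManyDisjoint R 𝓓 ∨ ∀ D ∈ 𝓓, ¬ Disjoint D T) := by
  classical
  set S : Finset (Finset (Finset (Fin n))) := univ.filter (fun 𝓔 => (∀ D ∈ 𝓔, D ∈ 𝓓) ∧
    (𝓔 : Set (Finset (Fin n))).PairwiseDisjoint id) with hS
  have hSne : S.Nonempty := ⟨∅, by simp [hS]⟩
  obtain ⟨𝓔, hE, hmax⟩ := Finset.exists_max_image S Finset.card hSne
  rw [hS, mem_filter] at hE
  obtain ⟨-, hE1, hE2⟩ := hE
  by_cases hR : R ≤ 𝓔.card
  · obtain ⟨𝓔', hsub, hc⟩ := Finset.exists_subset_card_eq hR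
    exact ⟨∅, by simp, Or.inl ⟨𝓔', fun D hD => hE1 D (hsub hD),
      hE2.subset (by exact_mod_cast hsub), hc⟩⟩
  · push Not at hR
    refine ⟨𝓔.biUnion id, ?_, Or.inr ?_⟩
    · refine (Finset.card_biUnion_le_card_mul 𝓔 id b (fun D hD => hcard D (hE1 D hD))).trans ?_
      exact Nat.mul_le_mul_right _ hR.le
    · intro D hD hdis
      have hDE : D ∉ 𝓔 := by
        intro h
        have h1 : D ⊆ 𝓔.biUnion id := Finset.subset_biUnion_of_mem id h
        have h2 := (Finset.disjoint_of_subset_right h1 hdis)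
        rw [disjoint_self] at h2
        exact (hne D hD).ne_empty h2
      have h3 : insert D 𝓔 ∈ S := by
        rw [hS, mem_filter]
        refine ⟨mem_univ _, ?_, ?_⟩
        · intro D' hD'
          rcases Finset.mem_insert.1 hD' with rfl | h
          · exact hD
          · exact hE1 D' h
        · rw [Finset.coe_insert]
          refine hE2.insert ?_
          intro D' hD' _
          exact Finset.disjoint_of_subset_right (Finset.subset_biUnion_of_mem id hD') hdis
      have h4 := hmax _ h3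
      rw [Finset.card_insert_of_notMem hDE] at h4
      omega

def Fam (𝒬 : Set (SimpleGraph (Fin n) → Prop)) (b : ℕ) (A : Finset (Fin n))
    (π : Finset (Fin n × Fin n)) : Set (Finset (Fin n)) :=
  {D | D.Nonempty ∧ Disjoint D A ∧ (A ∪ D).card ≤ b ∧
    ∃ Q ∈ 𝒬, LocalOn (A ∪ D) Q ∧ ∃ H, pat A H = π ∧ ¬ Q H}

lemma hitting_fam (𝒬 : Set (SimpleGraph (Fin n) → Prop)) (b R : ℕ) (A : Finset (Fin n))
    (π : Finset (Fin n × Fin n)) : ∃ T : Finset (Fin n), T.card ≤ R * b ∧
      (ManyDisjoint R (Fam 𝒬 b A π) ∨ ∀ D ∈ Fam 𝒬 b A π, ¬ Disjoint D T) :=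
  hitting _ b R (fun _ hD => hD.1)
    (fun _ hD => (Finset.card_le_card Finset.subset_union_right).trans hD.2.2.1)

noncomputable def hit (𝒬 : Set (SimpleGraph (Fin n) → Prop)) (b R : ℕ) (A : Finset (Fin n))
    (π : Finset (Fin n × Fin n)) : Finset (Fin n) := (hitting_fam 𝒬 b R A π).choose

lemma hit_card (𝒬 : Set (SimpleGraph (Fin n) → Prop)) (b R : ℕ) (A : Finset (Fin n))
    (π : Finset (Fin n × Fin n)) : (hit 𝒬 b R A π).card ≤ R * b :=
  (hitting_fam 𝒬 b R A π).choose_spec.1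

lemma hit_spec (𝒬 : Set (SimpleGraph (Fin n) → Prop)) (b R : ℕ) (A : Finset (Fin n))
    (π : Finset (Fin n × Fin n)) :
    ManyDisjoint R (Fam 𝒬 b A π) ∨ ∀ D ∈ Fam 𝒬 b A π, ¬ Disjoint D (hit 𝒬 b R A π) :=
  (hitting_fam 𝒬 b R A π).choose_spec.2

noncomputable def Tall (𝒬 : Set (SimpleGraph (Fin n) → Prop)) (b R : ℕ) (A : Finset (Fin n)) :
    Finset (Fin n) := (A ×ˢ A).powerset.biUnion (fun π => hit 𝒬 b R A π)

def tau (b R : ℕ) : ℕ := 2 ^ (b * b) * (R * b)

lemma Tall_card (𝒬 : Set (SimpleGraph (Fin n) → Prop)) (b R : ℕ) (A : Finset (Fin n))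
    (hA : A.card ≤ b) : (Tall 𝒬 b R A).card ≤ tau b R := by
  unfold Tall tau
  refine (Finset.card_biUnion_le_card_mul _ _ (R * b) (fun π _ => hit_card 𝒬 b R A π)).trans ?_
  rw [Finset.card_powerset, Finset.card_product]
  exact Nat.mul_le_mul_right _ (Nat.pow_le_pow_right (by norm_num) (Nat.mul_le_mul hA hA))

noncomputable def reach (𝒬 : Set (SimpleGraph (Fin n) → Prop)) (b R : ℕ) :
    ℕ → Finset (Finset (Fin n))
  | 0 => {∅}
  | l + 1 => (reach 𝒬 b R l).biUnion (fun A => (Tall 𝒬 b R A).image (fun y => insert y A))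

lemma reach_mem_card (𝒬 : Set (SimpleGraph (Fin n) → Prop)) (b R : ℕ) :
    ∀ l, ∀ A ∈ reach 𝒬 b R l, A.card ≤ l := by
  intro l
  induction l with
  | zero => intro A hA; simp [reach] at hA; simp [hA]
  | succ l ih =>
    intro A hA
    simp only [reach, mem_biUnion, mem_image] at hA
    obtain ⟨A', hA', y, -, rfl⟩ := hA
    exact (Finset.card_insert_le _ _).trans (Nat.succ_le_succ (ih A' hA'))

lemma reach_card (𝒬 : Set (SimpleGraph (Fin n) → Prop)) (b R : ℕ) :
    ∀ l, l ≤ b → (reach 𝒬 b R l).card ≤ tau b R ^ l := by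
  intro l
  induction l with
  | zero => intro _; simp [reach]
  | succ l ih =>
    intro hl
    have h1 := ih (by omega)
    simp only [reach]
    refine (Finset.card_biUnion_le_card_mul _ _ (tau b R) ?_).trans ?_
    · intro A hA
      refine Finset.card_image_le.trans (Tall_card 𝒬 b R A ?_)
      exact (reach_mem_card 𝒬 b R l A hA).trans (by omega)
    · rw [pow_succ]
      exact Nat.mul_le_mul_right _ h1

lemma tau_pos (b R : ℕ) (hb : 0 < b) (hR : 0 < R) : 0 < tau b R := by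
  unfold tau; positivity

/-- pairs of vertices which lie together in a reachable set -/
noncomputable def HH (𝒬 : Set (SimpleGraph (Fin n) → Prop)) (b R : ℕ) :
    Finset (Fin n × Fin n) :=
  (range (b + 1)).biUnion (fun l => (reach 𝒬 b R l).biUnion (fun A => A ×ˢ A))

lemma HH_card (𝒬 : Set (SimpleGraph (Fin n) → Prop)) (b R : ℕ) (hb : 0 < b) (hR : 0 < R) :
    (HH 𝒬 b R).card ≤ (b + 1) * (tau b R ^ b * (b * b)) := by
  unfold HH
  refine (Finset.card_biUnion_le_card_mul _ _ (tau b R ^ b * (b * b)) ?_).trans ?_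
  · intro l hl
    have hl' : l < b + 1 := Finset.mem_range.1 hl
    refine (Finset.card_biUnion_le_card_mul _ _ (b * b) ?_).trans ?_
    · intro A hA
      rw [Finset.card_product]
      have hAc := (reach_mem_card 𝒬 b R l A hA).trans (Nat.lt_succ_iff.1 hl')
      exact Nat.mul_le_mul hAc hAc
    · refine Nat.mul_le_mul_right _ ((reach_card 𝒬 b R l (by omega)).trans ?_)
      exact Nat.pow_le_pow_right (tau_pos b R hb hR) (by omega)
  · rw [Finset.card_range]

lemma mem_HH {𝒬 : Set (SimpleGraph (Fin n) → Prop)} {b R l : ℕ} (hl : l ≤ b)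
    {A : Finset (Fin n)} (hA : A ∈ reach 𝒬 b R l) {u v : Fin n} (hu : u ∈ A) (hv : v ∈ A) :
    (u, v) ∈ HH 𝒬 b R := by
  unfold HH
  rw [Finset.mem_biUnion]
  refine ⟨l, Finset.mem_range.2 (by omega), ?_⟩
  rw [Finset.mem_biUnion]
  exact ⟨A, hA, Finset.mem_product.2 ⟨hu, hv⟩⟩

def Bad (𝒬 : Set (SimpleGraph (Fin n) → Prop)) (b R : ℕ) (G : SimpleGraph (Fin n)) : Prop :=
  ∃ l < b, ∃ A ∈ reach 𝒬 b R l, ManyDisjoint R (Fam 𝒬 b A (pat A G))

/-- The chain lemma: if a universal test accepts `G0` and rejects `G1`, and `G0` is not bad, then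
some reachable set is not one of the sets on which the two graphs are known to agree. -/
theorem chain {𝒬 : Set (SimpleGraph (Fin n) → Prop)} {R : ℕ}
    (hQ : ∀ Q ∈ 𝒬, ∃ B : Finset (Fin n), B.card ≤ b ∧ LocalOn B Q)
    {G0 G1 : SimpleGraph (Fin n)} {𝒢 : Finset (Fin n) → Prop}
    (hagree : ∀ A, 𝒢 A → Agree A G0 G1)
    (h0 : ∀ Q ∈ 𝒬, Q G0) (h1 : ¬ ∀ Q ∈ 𝒬, Q G1) (hgood : ¬ Bad 𝒬 b R G0) :
    ∃ l ≤ b, ∃ A ∈ reach 𝒬 b R l, ¬ 𝒢 A := by
  classical
  by_contra hcon
  push Not at hcon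
  push Not at h1
  obtain ⟨Q, hQm, hQ1⟩ := h1
  obtain ⟨B, hBc, hB⟩ := hQ Q hQm
  have hBX : ¬ 𝒢 B := by
    intro h
    exact hQ1 ((hB G0 G1 (hagree B h)).1 (h0 Q hQm))
  have key : ∀ l, l ≤ b → ∃ A ∈ reach 𝒬 b R l, A ⊆ B ∧ A.card = l := by
    intro l
    induction l with
    | zero => intro _; exact ⟨∅, by simp [reach], by simp, by simp⟩
    | succ l ih =>
      intro hl
      obtain ⟨A, hAr, hAB, hAc⟩ := ih (by omega)
      have hAG : 𝒢 A := hcon l (by omega) A hAr
      have hne : (B \ A).Nonempty := by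
        rw [Finset.sdiff_nonempty]
        intro hsub
        have : A = B := Finset.Subset.antisymm hAB hsub
        exact hBX (this ▸ hAG)
      have hun : A ∪ (B \ A) = B := Finset.union_sdiff_of_subset hAB
      have hfam : B \ A ∈ Fam 𝒬 b A (pat A G0) := by
        refine ⟨hne, Finset.sdiff_disjoint, by rw [hun]; exact hBc, Q, hQm, by rw [hun]; exact hB,
          G1, ?_, hQ1⟩
        rw [pat_eq_iff]
        intro u hu v hv
        exact (hagree A hAG u hu v hv).symm
      have hhit := hit_spec 𝒬 b R A (pat A G0)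
      rcases hhit with h | h
      · exact absurd ⟨l, by omega, A, hAr, h⟩ hgood
      · have h2 := h _ hfam
        rw [Finset.not_disjoint_iff] at h2
        obtain ⟨y, hyD, hyT⟩ := h2
        have hyTall : y ∈ Tall 𝒬 b R A := by
          unfold Tall
          rw [Finset.mem_biUnion]
          exact ⟨_, Finset.mem_powerset.2 pat_subset, hyT⟩
        rw [Finset.mem_sdiff] at hyD
        refine ⟨insert y A, ?_, ?_, ?_⟩
        · simp only [reach, mem_biUnion, mem_image]
          exact ⟨A, hAr, y, hyTall, rfl⟩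
        · exact Finset.insert_subset hyD.1 hAB
        · rw [Finset.card_insert_of_notMem hyD.2, hAc]
  obtain ⟨A, hAr, hAB, hAc⟩ := key b le_rfl
  have : A = B := Finset.eq_of_subset_of_card_le hAB (by omega)
  exact hBX (this ▸ hcon b le_rfl A hAr)

/-- removing the members which meet the image of `φ` -/
lemma avoid_image (φ : Lab k → Fin n) {R0 : ℕ} {𝓓 : Set (Finset (Fin n))}
    (h : ManyDisjoint (R0 + Fintype.card (Lab k)) 𝓓) :
    ∃ 𝓔 : Finset (Finset (Fin n)), (∀ D ∈ 𝓔, D ∈ 𝓓) ∧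
    (𝓔 : Set (Finset (Fin n))).PairwiseDisjoint id ∧ 𝓔.card = R0 ∧
    ∀ D ∈ 𝓔, ∀ γ, φ γ ∉ D := by
  classical
  obtain ⟨𝓔, h1, h2, h3⟩ := h
  set 𝓔' := 𝓔.filter (fun D => ∀ γ, φ γ ∉ D) with hE'
  have hbad : (𝓔.filter (fun D => ¬ ∀ γ, φ γ ∉ D)).card ≤ Fintype.card (Lab k) := by
    have hch : ∀ D : Finset (Fin n), ∃ γ : Option (Lab k), (¬ ∀ γ, φ γ ∉ D) →
        ∃ δ, γ = some δ ∧ φ δ ∈ D := by
      intro D
      by_cases hD : ∀ γ, φ γ ∉ D
      · exact ⟨none, fun h => absurd hD h⟩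
      · push Not at hD
        obtain ⟨δ, hδ⟩ := hD
        exact ⟨some δ, fun _ => ⟨δ, rfl, hδ⟩⟩
    choose c hc using hch
    have hinj : Set.InjOn c (𝓔.filter (fun D => ¬ ∀ γ, φ γ ∉ D) : Finset (Finset (Fin n))) := by
      intro D hD D' hD' heq
      rw [Finset.mem_coe, mem_filter] at hD hD'
      obtain ⟨δ, hδ, hδD⟩ := hc D hD.2
      obtain ⟨δ', hδ', hδD'⟩ := hc D' hD'.2
      have hδδ' : δ = δ' := by
        rw [heq, hδ'] at hδ
        exact (Option.some.inj hδ).symm
      by_contra hne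
      have := h2 hD.1 hD'.1 hne
      rw [Function.onFun] at this
      exact Finset.disjoint_left.1 this hδD (hδδ' ▸ hδD')
    have hmaps : ∀ D ∈ (𝓔.filter (fun D => ¬ ∀ γ, φ γ ∉ D) : Finset (Finset (Fin n))),
        c D ∈ (univ : Finset (Lab k)).image some := by
      intro D hD
      rw [mem_filter] at hD
      obtain ⟨δ, hδ, -⟩ := hc D hD.2
      rw [hδ]
      simp
    have := Finset.card_le_card_of_injOn c hmaps hinj
    refine this.trans (Finset.card_image_le.trans ?_)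
    rw [Finset.card_univ]
  have htot := Finset.card_filter_add_card_filter_not (s := 𝓔) (fun D => ∀ γ, φ γ ∉ D)
  have hge : R0 ≤ 𝓔'.card := by
    rw [hE']; omega
  obtain ⟨𝓔'', hsub, hc⟩ := Finset.exists_subset_card_eq hge
  refine ⟨𝓔'', ?_, ?_, hc, ?_⟩
  · intro D hD
    exact h1 D (Finset.mem_filter.1 (hsub hD)).1
  · refine h2.subset ?_
    intro D hD
    exact (Finset.mem_filter.1 (hsub hD)).1
  · intro D hD
    exact (Finset.mem_filter.1 (hsub hD)).2

/-- environments where the test accepts although many disjoint members of some family are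
present -/
noncomputable def badSet (𝒬 : Set (SimpleGraph (Fin n) → Prop)) (b R : ℕ)
    (φ : Lab k → Fin n) (z : Fin k → Fin k → ZMod 2) : Finset (Env n b) := by
  classical
  exact univ.filter (fun e : Env n b => (∀ Q ∈ 𝒬, Q (gr φ z e)) ∧ Bad 𝒬 b R (gr φ z e))

lemma badSet_card (𝒬 : Set (SimpleGraph (Fin n) → Prop)) (hb : 0 < b) (R0 : ℕ) (hR0 : 0 < R0)
    (φ : Lab k → Fin n) (z : Fin k → Fin k → ZMod 2) :
    KK b ^ R0 * (badSet 𝒬 b (R0 + Fintype.card (Lab k)) φ z).card ≤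
      (b * tau b (R0 + Fintype.card (Lab k)) ^ b * 2 ^ (b * b)) *
        ((KK b - 1) ^ R0 * Fintype.card (Env n b)) := by
  classical
  set R := R0 + Fintype.card (Lab k) with hR
  -- the pieces
  set piece : Finset (Fin n) → Finset (Fin n × Fin n) → Finset (Env n b) := fun A π =>
    univ.filter (fun e : Env n b => (∀ Q ∈ 𝒬, Q (gr φ z e)) ∧ pat A (gr φ z e) = π ∧
      ManyDisjoint R (Fam 𝒬 b A π)) with hpiece
  have hp : ∀ A π, KK b ^ R0 * (piece A π).card ≤ (KK b - 1) ^ R0 * Fintype.card (Env n b) := by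
    intro A π
    by_cases hM : ManyDisjoint R (Fam 𝒬 b A π)
    · obtain ⟨𝓔, h1, h2, h3, h4⟩ := avoid_image φ hM
      have hch : ∀ D : Finset (Fin n), ∃ H : SimpleGraph (Fin n), D ∈ 𝓔 →
          ∃ Q ∈ 𝒬, LocalOn (A ∪ D) Q ∧ pat A H = π ∧ ¬ Q H := by
        intro D
        by_cases hD : D ∈ 𝓔
        · obtain ⟨-, -, -, Q, hQ, hloc, H, hH, hQH⟩ := h1 D hD
          exact ⟨H, fun _ => ⟨Q, hQ, hloc, hH, hQH⟩⟩
        · exact ⟨⊥, fun h => absurd h hD⟩
      choose H hH using hch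
      have hkill := kill (b := b) φ z A π H 𝓔 h2 (fun D hD => (h1 D hD).2.1) h4
        (fun D hD => (h1 D hD).2.2.1)
        (fun D hD => by obtain ⟨Q, -, -, hpat, -⟩ := hH D hD; exact hpat)
        (fun D hD => (h1 D hD).1)
      rw [h3] at hkill
      refine le_trans (Nat.mul_le_mul_left _ (Finset.card_le_card ?_)) hkill
      intro e he
      rw [hpiece] at he
      simp only [mem_filter, mem_univ, true_and] at he
      rw [mem_Surv]
      refine ⟨he.2.1, ?_⟩
      intro D hD hag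
      obtain ⟨Q, hQ, hloc, -, hQH⟩ := hH D hD
      exact hQH ((hloc _ _ hag).1 (he.1 Q hQ))
    · have : piece A π = ∅ := by
        rw [hpiece]
        simp only
        rw [Finset.filter_eq_empty_iff]
        rintro e - ⟨-, -, h⟩
        exact hM h
      rw [this]
      simp
  have hsub : badSet 𝒬 b R φ z ⊆ (range b).biUnion (fun l => (reach 𝒬 b R l).biUnion
      (fun A => (A ×ˢ A).powerset.biUnion (fun π => piece A π))) := by
    intro e he
    unfold badSet at he
    simp only [mem_filter, mem_univ, true_and] at he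
    obtain ⟨hQ, l, hl, A, hA, hM⟩ := he
    simp only [mem_biUnion, mem_range, mem_powerset]
    refine ⟨l, hl, A, hA, pat A (gr φ z e), pat_subset, ?_⟩
    rw [hpiece]
    simp only [mem_filter, mem_univ, true_and]
    exact ⟨hQ, hM⟩
  have hτ : 0 < tau b R := tau_pos b R hb (by omega)
  set N := (KK b - 1) ^ R0 * Fintype.card (Env n b) with hN
  have hcount : ∀ (l : ℕ), l < b → ∀ A ∈ reach 𝒬 b R l,
      KK b ^ R0 * ((A ×ˢ A).powerset.biUnion (fun π => piece A π)).card ≤ 2 ^ (b * b) * N := by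
    intro l hl A hA
    calc KK b ^ R0 * ((A ×ˢ A).powerset.biUnion (fun π => piece A π)).card
        ≤ KK b ^ R0 * ∑ π ∈ (A ×ˢ A).powerset, (piece A π).card :=
          Nat.mul_le_mul_left _ Finset.card_biUnion_le
      _ = ∑ π ∈ (A ×ˢ A).powerset, KK b ^ R0 * (piece A π).card := by rw [Finset.mul_sum]
      _ ≤ ∑ π ∈ (A ×ˢ A).powerset, N := Finset.sum_le_sum (fun π _ => hp A π)
      _ = 2 ^ (A.card * A.card) * N := by
          rw [Finset.sum_const, Finset.card_powerset, Finset.card_product, smul_eq_mul]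
      _ ≤ 2 ^ (b * b) * N := by
          have hAc := (reach_mem_card 𝒬 b R l A hA).trans hl.le
          exact Nat.mul_le_mul_right _ (Nat.pow_le_pow_right (by norm_num)
            (Nat.mul_le_mul hAc hAc))
  calc KK b ^ R0 * (badSet 𝒬 b R φ z).card
      ≤ KK b ^ R0 * ((range b).biUnion (fun l => (reach 𝒬 b R l).biUnion
        (fun A => (A ×ˢ A).powerset.biUnion (fun π => piece A π)))).card :=
        Nat.mul_le_mul_left _ (Finset.card_le_card hsub)
    _ ≤ KK b ^ R0 * ∑ l ∈ range b, ∑ A ∈ reach 𝒬 b R l,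
        ((A ×ˢ A).powerset.biUnion (fun π => piece A π)).card := by
        refine Nat.mul_le_mul_left _ (Finset.card_biUnion_le.trans ?_)
        exact Finset.sum_le_sum (fun l _ => Finset.card_biUnion_le)
    _ = ∑ l ∈ range b, ∑ A ∈ reach 𝒬 b R l, KK b ^ R0 *
        ((A ×ˢ A).powerset.biUnion (fun π => piece A π)).card := by
        rw [Finset.mul_sum]
        refine Finset.sum_congr rfl fun l _ => ?_
        rw [Finset.mul_sum]
    _ ≤ ∑ l ∈ range b, ∑ A ∈ reach 𝒬 b R l, 2 ^ (b * b) * N :=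
        Finset.sum_le_sum (fun l hl => Finset.sum_le_sum
          (fun A hA => hcount l (Finset.mem_range.1 hl) A hA))
    _ ≤ ∑ l ∈ range b, tau b R ^ b * (2 ^ (b * b) * N) := by
        refine Finset.sum_le_sum (fun l hl => ?_)
        rw [Finset.sum_const, smul_eq_mul]
        refine Nat.mul_le_mul_right _ ?_
        have hl' : l < b := Finset.mem_range.1 hl
        exact (reach_card 𝒬 b R l hl'.le).trans (Nat.pow_le_pow_right hτ hl'.le)
    _ = (b * tau b R ^ b * 2 ^ (b * b)) * N := by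
        rw [Finset.sum_const, Finset.card_range, smul_eq_mul]; ring

end Pool.Agent.Lib.MP_678664_lc
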