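import Pool.Agent.Lib.MP_678664_lc.Gadget

set_option autoImplicit false

namespace Pool.Agent.Lib.MP_678664_lc

open Finset

variable {n k b : ℕ}

lemma sum_offdiag_zero (x : Fin k → Fin k → ZMod 2) (h : ∀ i j, i ≠ j → x i j = x j i) :
    ∑ i, ∑ j ∈ univ.erase i, x i j = 0 := by
  have h1 : ∀ i, ∑ j ∈ univ.erase i, x i j = ∑ j, (if i = j then 0 else x i j) := by
    intro i
    rw [← Finset.add_sum_erase univ _ (mem_univ i)]
    simp only [if_true, zero_add]
    refine Finset.sum_congr rfl fun j hj => ?_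
    rw [if_neg (Finset.ne_of_mem_erase hj).symm]
  simp only [h1]
  rw [← Finset.sum_product']
  refine Finset.sum_involution (fun p _ => (p.2, p.1)) ?_ ?_ ?_ ?_
  · rintro ⟨i, j⟩ -
    by_cases hij : i = j
    · subst hij; simp
    · simp only [if_neg hij, if_neg (Ne.symm hij)]
      rw [h i j hij]
      exact CharTwo.add_self_eq_zero _
  · rintro ⟨i, j⟩ - hne heq
    simp only [Prod.mk.injEq] at heq
    obtain ⟨rfl, -⟩ := heq
    simp at hne
  · simp
  · simp

theorem clique_of_sum (hk : 0 < k) {φ : Lab k → Fin n} (hφ : Function.Injective φ)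
    {z : Fin k → Fin k → ZMod 2} (e : Env n b) (hz : ∑ i, ∑ j ∈ univ.erase i, z i j = 0) :
    ¬ (gr φ z e).CliqueFree k := by
  classical
  set s : Fin k → ZMod 2 := fun i => ∑ j ∈ univ.erase i, z i j with hsdef
  have hs : ∑ i, s i = 0 := hz
  set r : Fin k := ⟨0, hk⟩ with hr
  set x : Fin k → Fin k → ZMod 2 := fun i j => if i = r then s j else if j = r then s i else 0
    with hx
  have hxsum : ∀ i, ∑ j ∈ univ.erase i, x i j = s i := by
    intro i
    by_cases hi : i = r
    · have h1 : ∀ j, x i j = s j := by intro j; simp [hx, hi]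
      simp only [h1]
      have h2 := Finset.add_sum_erase univ s (mem_univ i)
      rw [hs] at h2
      have h3 := eq_neg_of_add_eq_zero_right h2
      rw [h3]
      exact CharTwo.neg_eq _
    · have h1 : ∀ j, x i j = if j = r then s i else 0 := by intro j; simp [hx, hi]
      simp only [h1]
      rw [Finset.sum_ite_eq' (univ.erase i) r (fun _ => s i), if_pos]
      exact Finset.mem_erase.2 ⟨Ne.symm hi, mem_univ _⟩
  have hxsymm : ∀ i j, i ≠ j → x i j = x j i := by
    intro i j hij
    simp only [hx]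
    by_cases hi : i = r
    · have hj : j ≠ r := fun h => hij (hi.trans h.symm)
      simp [hi, hj]
    · by_cases hj : j = r
      · simp [hi, hj]
      · simp [hi, hj]
  set a : Fin k → Fin k → ZMod 2 := fun i j => x i j + z i j with ha
  have hact : ∀ i, Act (i, a i) := by
    intro i
    unfold Act
    simp only [ha]
    rw [Finset.sum_add_distrib, hxsum i]
    exact CharTwo.add_self_eq_zero _
  have hax : ∀ i j, a i j + z i j = x i j := by
    intro i j
    simp only [ha]
    rw [add_assoc, CharTwo.add_self_eq_zero, add_zero]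
  intro hfree
  refine hfree (univ.image (fun i => φ (i, a i))) ?_
  have hinj : Function.Injective (fun i => φ (i, a i)) := by
    intro i j hij
    have := hφ hij
    exact (Prod.mk.inj this).1
  refine ⟨?_, ?_⟩
  · intro u hu v hv huv
    simp only [coe_image, coe_univ, Set.image_univ, Set.mem_range] at hu hv
    obtain ⟨i, rfl⟩ := hu
    obtain ⟨j, rfl⟩ := hv
    have hij : i ≠ j := fun h => huv (by rw [h])
    refine ⟨huv, Or.inl ⟨_, _, lab_eq_some hφ (hact i), lab_eq_some hφ (hact j), hij, ?_⟩⟩
    simp only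
    rw [hax, hax]
    exact hxsymm i j hij
  · rw [Finset.card_image_of_injective _ hinj]
    simp

theorem sum_of_clique (hb : 0 < b) (hbk : 2 * b ≤ k) {φ : Lab k → Fin n}
    {z : Fin k → Fin k → ZMod 2} (e : Env n b) (hc : ¬ (gr φ z e).CliqueFree k) :
    ∑ i, ∑ j ∈ univ.erase i, z i j = 0 := by
  classical
  unfold SimpleGraph.CliqueFree at hc
  push Not at hc
  obtain ⟨K, hK, hcard⟩ := hc
  -- the part or the level of a vertex
  set c : Fin n → ℕ := fun u => match lab φ u with
    | some γ => (γ.1 : ℕ)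
    | none => (e.1 u : ℕ) with hcdef
  have c_some : ∀ {u γ}, lab φ u = some γ → c u = γ.1 := by
    intro u γ h; simp only [hcdef, h]
  have c_none : ∀ {u}, lab φ u = none → c u = e.1 u := by
    intro u h; simp only [hcdef, h]
  have hlev : ∀ u ∈ K, ∀ v ∈ K, u ≠ v → lab φ u = none → lev φ e u ≠ lev φ e v := by
    intro u hu v hv huv hn
    have hadj : (gr φ z e).Adj u v := hK hu hv huv
    obtain ⟨-, h | h⟩ := hadj
    · obtain ⟨γ, δ, h1, -⟩ := h
      rw [hn] at h1; cases h1
    · exact h.2.1
  have hact : ∀ u ∈ K, ∀ v ∈ K, u ≠ v → ∀ γ δ, lab φ u = some γ → lab φ v = some δ →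
      γ.1 ≠ δ.1 ∧ γ.2 δ.1 + z γ.1 δ.1 = δ.2 γ.1 + z δ.1 γ.1 := by
    intro u hu v hv huv γ δ h1 h2
    have hadj : (gr φ z e).Adj u v := hK hu hv huv
    obtain ⟨-, h | h⟩ := hadj
    · obtain ⟨γ', δ', h1', h2', h3⟩ := h
      rw [h1] at h1'; rw [h2] at h2'
      cases h1'; cases h2'
      exact h3
    · rcases h.1 with h' | h'
      · rw [h1] at h'; cases h'
      · rw [h2] at h'; cases h'
  -- mixed pairs
  have hmix : ∀ u ∈ K, ∀ v ∈ K, ∀ γ, lab φ u = none → lab φ v = some γ →
      (e.1 u : ℕ) ≠ (γ.1 : ℕ) % b := by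
    intro u hu v hv γ h1 h2 heq
    have huv : u ≠ v := by
      rintro rfl
      rw [h1] at h2; cases h2
    refine hlev u hu v hv huv h1 ?_
    rw [lev_none h1, lev_some h2]; exact heq
  have hinj : Set.InjOn c K := by
    intro u hu v hv huv
    by_contra hne
    rcases h1 : lab φ u with _ | γ
    · rcases h2 : lab φ v with _ | δ
      · refine hlev u hu v hv hne h1 ?_
        rw [lev_none h1, lev_none h2, ← c_none h1, ← c_none h2]; exact huv
      · refine hmix u hu v hv δ h1 h2 ?_
        rw [c_none h1, c_some h2] at huv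
        rw [← huv, Nat.mod_eq_of_lt (e.1 u).2]
    · rcases h2 : lab φ v with _ | δ
      · refine hmix v hv u hu γ h2 h1 ?_
        rw [c_none h2, c_some h1] at huv
        rw [huv, Nat.mod_eq_of_lt (e.1 v).2]
      · refine (hact u hu v hv hne γ δ h1 h2).1 ?_
        rw [c_some h1, c_some h2] at huv
        exact Fin.ext huv
  have hlt : ∀ u, c u < k := by
    intro u
    rcases h1 : lab φ u with _ | γ
    · rw [c_none h1]; have := (e.1 u).2; omega
    · rw [c_some h1]; exact γ.1.2
  have himg : K.image c = range k := by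
    apply Finset.eq_of_subset_of_card_le
    · intro m hm
      obtain ⟨u, -, rfl⟩ := Finset.mem_image.1 hm
      exact Finset.mem_range.2 (hlt u)
    · rw [Finset.card_image_of_injOn hinj, Finset.card_range, hcard]
  have hall : ∀ u ∈ K, ∃ γ, lab φ u = some γ := by
    intro u hu
    rcases h1 : lab φ u with _ | γ
    · exfalso
      have hm : (e.1 u : ℕ) + b ∈ K.image c := by
        rw [himg, Finset.mem_range]; have := (e.1 u).2; omega
      obtain ⟨w, hw, hcw⟩ := Finset.mem_image.1 hm
      rcases h2 : lab φ w with _ | δ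
      · rw [c_none h2] at hcw
        have := (e.1 w).2
        omega
      · refine hmix u hu w hw δ h1 h2 ?_
        rw [c_some h2] at hcw
        rw [hcw, Nat.add_mod_right, Nat.mod_eq_of_lt (e.1 u).2]
    · exact ⟨γ, rfl⟩
  have hsel : ∀ i : Fin k, ∃ w ∈ K, ∃ γ, lab φ w = some γ ∧ γ.1 = i := by
    intro i
    have hm : (i : ℕ) ∈ K.image c := by rw [himg, Finset.mem_range]; exact i.2
    obtain ⟨w, hw, hcw⟩ := Finset.mem_image.1 hm
    obtain ⟨γ, hγ⟩ := hall w hw
    refine ⟨w, hw, γ, hγ, ?_⟩
    rw [c_some hγ] at hcw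
    exact Fin.ext hcw
  choose w hwK γ hγ hγi using hsel
  have hsum : ∀ i, ∑ j ∈ univ.erase i, z i j = ∑ j ∈ univ.erase i, ((γ i).2 j + z i j) := by
    intro i
    have := (lab_some (hγ i)).2
    unfold Act at this
    rw [hγi i] at this
    rw [Finset.sum_add_distrib, this, zero_add]
  rw [Finset.sum_congr rfl (fun i _ => hsum i)]
  apply sum_offdiag_zero
  intro i j hij
  have hne : w i ≠ w j := by
    intro h
    have h1 := hγ i
    rw [h, hγ j] at h1
    have h2 := Option.some.inj h1
    exact hij ((hγi i).symm.trans ((congrArg Prod.fst h2.symm).trans (hγi j)))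
  have := (hact _ (hwK i) _ (hwK j) hne _ _ (hγ i) (hγ j)).2
  rw [hγi i, hγi j] at this
  exact this

end Pool.Agent.Lib.MP_678664_lc
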