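import Pool.Agent.Lib.MP_678664_lc.Chain

set_option autoImplicit false

namespace Pool.Agent.Lib.MP_678664_lc

open Finset

variable {n k b : ℕ}

section Cliq

variable {X : Type} [Fintype X] [DecidableEq X]

lemma sum_deg_le (E : Finset (X × X)) :
    ∑ x : X, (univ.filter (fun z => (x, z) ∈ E)).card ≤ E.card := by
  rw [Finset.card_eq_sum_card_fiberwise (f := Prod.fst) (s := E) (t := univ)
    (fun _ _ => by simp)]
  refine Finset.sum_le_sum fun x _ => ?_
  refine Finset.card_le_card_of_injOn (fun z => (x, z)) ?_ ?_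
  · intro z hz
    simpa using hz
  · intro z _ z' _ h
    exact (Prod.mk.inj h).2

lemma triangle_count (E : Finset (X × X)) :
    (∑ p ∈ E, (univ.filter (fun z => (p.2, z) ∈ E ∧ (p.1, z) ∈ E)).card) ^ 2 ≤ E.card ^ 3 := by
  set d : X → ℕ := fun x => (univ.filter (fun z => (x, z) ∈ E)).card with hd
  set c : X × X → ℕ := fun p => (univ.filter (fun z => (p.2, z) ∈ E ∧ (p.1, z) ∈ E)).card with hc
  have hcd : ∀ p, c p ^ 2 ≤ d p.1 * d p.2 := by
    intro p
    have h1 : c p ≤ d p.1 := by
      refine Finset.card_le_card ?_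
      intro z hz
      simp only [mem_filter, mem_univ, true_and] at hz ⊢
      exact hz.2
    have h2 : c p ≤ d p.2 := by
      refine Finset.card_le_card ?_
      intro z hz
      simp only [mem_filter, mem_univ, true_and] at hz ⊢
      exact hz.1
    rw [sq]
    exact Nat.mul_le_mul h1 h2
  have hsum : ∑ p ∈ E, d p.1 * d p.2 ≤ E.card ^ 2 := by
    calc ∑ p ∈ E, d p.1 * d p.2 ≤ ∑ p : X × X, d p.1 * d p.2 :=
          Finset.sum_le_sum_of_subset (Finset.subset_univ _)
      _ = (∑ x, d x) * ∑ y, d y := by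
          rw [Fintype.sum_prod_type, Finset.sum_mul_sum]
      _ ≤ E.card * E.card := Nat.mul_le_mul (sum_deg_le E) (sum_deg_le E)
      _ = E.card ^ 2 := (sq _).symm
  calc (∑ p ∈ E, c p) ^ 2 ≤ E.card * ∑ p ∈ E, c p ^ 2 := sq_sum_le_card_mul_sum_sq
    _ ≤ E.card * ∑ p ∈ E, d p.1 * d p.2 :=
        Nat.mul_le_mul_left _ (Finset.sum_le_sum fun p _ => hcd p)
    _ ≤ E.card * E.card ^ 2 := Nat.mul_le_mul_left _ hsum
    _ = E.card ^ 3 := by ring

/-- tuples all of whose pairs lie in `E` -/
def cliq (E : Finset (X × X)) (k : ℕ) : Finset (Fin k → X) :=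
  univ.filter (fun φ : Fin k → X => ∀ p q, p ≠ q → (φ p, φ q) ∈ E)

lemma mem_cliq {E : Finset (X × X)} {k : ℕ} {φ : Fin k → X} :
    φ ∈ cliq E k ↔ ∀ p q, p ≠ q → (φ p, φ q) ∈ E := by
  unfold cliq; simp

lemma cliq_two (E : Finset (X × X)) : (cliq E 2).card ^ 2 ≤ E.card ^ 2 := by
  refine Nat.pow_le_pow_left ?_ 2
  refine Finset.card_le_card_of_injOn (fun φ => (φ 0, φ 1)) ?_ ?_
  · intro φ hφ
    exact (mem_cliq.1 hφ) 0 1 (by decide)
  · intro φ _ φ' _ h
    funext i
    have := Prod.mk.inj h
    fin_cases i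
    · exact this.1
    · exact this.2

lemma cliq_three (E : Finset (X × X)) : (cliq E 3).card ^ 2 ≤ E.card ^ 3 := by
  refine le_trans (Nat.pow_le_pow_left ?_ 2) (triangle_count E)
  rw [← Finset.card_sigma]
  refine Finset.card_le_card_of_injOn (fun φ => ⟨(φ 0, φ 1), φ 2⟩) ?_ ?_
  · intro φ hφ
    have hφ' := mem_cliq.1 hφ
    rw [Finset.mem_coe, Finset.mem_sigma]
    refine ⟨hφ' 0 1 (by decide), ?_⟩
    simp only [mem_filter, mem_univ, true_and]
    exact ⟨hφ' 1 2 (by decide), hφ' 0 2 (by decide)⟩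
  · intro φ _ φ' _ h
    simp only [Sigma.mk.injEq, Prod.mk.injEq, heq_eq_eq] at h
    funext i
    fin_cases i
    · exact h.1.1
    · exact h.1.2
    · exact h.2

lemma cliq_step (E : Finset (X × X)) (k : ℕ) :
    (cliq E (k + 2)).card ≤ E.card * (cliq E k).card := by
  rw [← Finset.card_product]
  refine Finset.card_le_card_of_injOn
    (fun φ => ((φ 0, φ 1), fun i : Fin k => φ i.succ.succ)) ?_ ?_
  · intro φ hφ
    have hφ' := mem_cliq.1 hφ
    rw [Finset.mem_coe, Finset.mem_product]
    refine ⟨hφ' 0 1 (by simp), ?_⟩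
    rw [mem_cliq]
    intro p q hpq
    refine hφ' _ _ ?_
    intro h
    exact hpq (Fin.succ_injective _ (Fin.succ_injective _ h))
  · intro φ _ φ' _ h
    simp only [Prod.mk.injEq] at h
    funext i
    refine Fin.cases h.1.1 (fun i => ?_) i
    refine Fin.cases h.1.2 (fun i => ?_) i
    exact congrFun h.2 i

lemma cliq_card (E : Finset (X × X)) : ∀ m, (cliq E (m + 2)).card ^ 2 ≤ E.card ^ (m + 2) := by
  intro m
  induction m using Nat.strong_induction_on with
  | _ m ih =>
    match m, ih with
    | 0, _ => exact cliq_two E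
    | 1, _ => exact cliq_three E
    | m + 2, ih =>
      have h1 := ih m (by omega)
      have h2 := cliq_step E (m + 2)
      calc (cliq E (m + 2 + 2)).card ^ 2 ≤ (E.card * (cliq E (m + 2)).card) ^ 2 :=
            Nat.pow_le_pow_left h2 2
        _ = E.card ^ 2 * (cliq E (m + 2)).card ^ 2 := by ring
        _ ≤ E.card ^ 2 * E.card ^ (m + 2) := Nat.mul_le_mul_left _ h1
        _ = E.card ^ (m + 2 + 2) := by ring

end Cliq

open Classical in
lemma pair_count (H : Finset (Fin n × Fin n)) :
    (univ.filter (fun fg : ((Fin k → ZMod 2) → Fin n) × ((Fin k → ZMod 2) → Fin n) =>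
      ∃ a a', (fg.1 a, fg.2 a') ∈ H)).card * n ^ 2 ≤
      4 ^ k * H.card * Fintype.card ((Fin k → ZMod 2) → Fin n) ^ 2 := by
  set X := (Fin k → ZMod 2) → Fin n with hX
  set P : (Fin k → ZMod 2) × (Fin k → ZMod 2) → Finset (X × X) := fun aa =>
    univ.filter (fun fg : X × X => (fg.1 aa.1, fg.2 aa.2) ∈ H) with hP
  have hsub : univ.filter (fun fg : X × X => ∃ a a', (fg.1 a, fg.2 a') ∈ H) ⊆
      univ.biUnion P := by
    intro fg hfg
    simp only [mem_filter, mem_univ, true_and] at hfg
    obtain ⟨a, a', h⟩ := hfg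
    rw [Finset.mem_biUnion]
    exact ⟨(a, a'), mem_univ _, by simp only [hP, mem_filter, mem_univ, true_and]; exact h⟩
  have hPc : ∀ aa, (P aa).card * n ^ 2 ≤ H.card * Fintype.card X ^ 2 := by
    intro aa
    have h1 : ((P aa) ×ˢ (univ : Finset (Fin n × Fin n))).card ≤
        (H ×ˢ (univ : Finset (X × X))).card := by
      refine Finset.card_le_card_of_injOn (fun q =>
        ((q.1.1 aa.1, q.1.2 aa.2),
          (Function.update q.1.1 aa.1 q.2.1, Function.update q.1.2 aa.2 q.2.2))) ?_ ?_
      · rintro ⟨fg, vw⟩ hq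
        rw [Finset.mem_coe, Finset.mem_product] at hq ⊢
        refine ⟨?_, mem_univ _⟩
        have := hq.1
        simp only [hP, mem_filter, mem_univ, true_and] at this
        exact this
      · rintro ⟨⟨f, g⟩, ⟨v, w⟩⟩ _ ⟨⟨f', g'⟩, ⟨v', w'⟩⟩ _ heq
        simp only [Prod.mk.injEq] at heq
        obtain ⟨⟨h1, h2⟩, h3, h4⟩ := heq
        have hv : v = v' := by
          have := congrFun h3 aa.1
          rwa [Function.update_self, Function.update_self] at this
        have hw : w = w' := by
          have := congrFun h4 aa.2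
          rwa [Function.update_self, Function.update_self] at this
        have hf : f = f' := by
          funext x
          by_cases hx : x = aa.1
          · rw [hx]; exact h1
          · have := congrFun h3 x
            rwa [Function.update_of_ne hx, Function.update_of_ne hx] at this
        have hg : g = g' := by
          funext x
          by_cases hx : x = aa.2
          · rw [hx]; exact h2
          · have := congrFun h4 x
            rwa [Function.update_of_ne hx, Function.update_of_ne hx] at this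
        rw [hv, hw, hf, hg]
    rw [Finset.card_product, Finset.card_product, Finset.card_univ, Finset.card_univ,
      Fintype.card_prod, Fintype.card_prod, Fintype.card_fin] at h1
    rw [sq, sq]
    exact h1
  calc (univ.filter (fun fg : X × X => ∃ a a', (fg.1 a, fg.2 a') ∈ H)).card * n ^ 2
      ≤ (∑ aa, (P aa).card) * n ^ 2 :=
        Nat.mul_le_mul_right _ ((Finset.card_le_card hsub).trans Finset.card_biUnion_le)
    _ = ∑ aa, (P aa).card * n ^ 2 := by rw [Finset.sum_mul]
    _ ≤ ∑ aa : (Fin k → ZMod 2) × (Fin k → ZMod 2), H.card * Fintype.card X ^ 2 :=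
        Finset.sum_le_sum fun aa _ => hPc aa
    _ = 4 ^ k * H.card * Fintype.card X ^ 2 := by
        rw [Finset.sum_const, Finset.card_univ, Fintype.card_prod,
          Fintype.card_fun (α := Fin k) (β := ZMod 2), ZMod.card, Fintype.card_fin, smul_eq_mul,
          ← mul_pow]
        norm_num
        ring

open Classical in
lemma card_sens (hk : 2 ≤ k) (H : Finset (Fin n × Fin n)) :
    n ^ (2 * k) * (univ.filter (fun φ : Lab k → Fin n => ∀ p q, p ≠ q →
      ∃ a a', (φ (p, a), φ (q, a')) ∈ H)).card ^ 2 ≤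
      (4 ^ k * H.card) ^ k * Fintype.card (Lab k → Fin n) ^ 2 := by
  set X := (Fin k → ZMod 2) → Fin n with hX
  set E : Finset (X × X) := univ.filter (fun fg : X × X => ∃ a a', (fg.1 a, fg.2 a') ∈ H) with hE
  have h1 : (univ.filter (fun φ : Lab k → Fin n => ∀ p q, p ≠ q →
      ∃ a a', (φ (p, a), φ (q, a')) ∈ H)).card ≤ (cliq E k).card := by
    refine Finset.card_le_card_of_injOn (fun φ => (Function.curry φ : Fin k → X)) ?_ ?_
    · intro φ hφ
      rw [Finset.mem_coe, mem_filter] at hφ
      rw [Finset.mem_coe, mem_cliq]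
      intro p q hpq
      rw [hE, mem_filter]
      exact ⟨mem_univ _, hφ.2 p q hpq⟩
    · intro φ _ φ' _ h
      funext ⟨i, a⟩
      exact congrFun (congrFun h i) a
  obtain ⟨m, rfl⟩ : ∃ m, k = m + 2 := ⟨k - 2, by omega⟩
  have h2 := cliq_card E m
  have h3 := pair_count (k := m + 2) H
  have h4 : Fintype.card (Lab (m + 2) → Fin n) = Fintype.card X ^ (m + 2) := by
    have h5 : Fintype.card X = n ^ (Fintype.card (Fin (m + 2) → ZMod 2)) := by
      rw [Fintype.card_fun (α := (Fin (m + 2) → ZMod 2)) (β := Fin n), Fintype.card_fin]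
    rw [h5, Fintype.card_fun (α := Lab (m + 2)) (β := Fin n), Fintype.card_prod,
      Fintype.card_fin, Fintype.card_fin, ← pow_mul, mul_comm]
  rw [h4]
  calc n ^ (2 * (m + 2)) * (univ.filter (fun φ : Lab (m + 2) → Fin n => ∀ p q, p ≠ q →
      ∃ a a', (φ (p, a), φ (q, a')) ∈ H)).card ^ 2
      ≤ n ^ (2 * (m + 2)) * E.card ^ (m + 2) :=
        Nat.mul_le_mul_left _ ((Nat.pow_le_pow_left h1 2).trans h2)
    _ = (E.card * n ^ 2) ^ (m + 2) := by rw [pow_mul, mul_pow, mul_comm]
    _ ≤ (4 ^ (m + 2) * H.card * Fintype.card X ^ 2) ^ (m + 2) := Nat.pow_le_pow_left h3 _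
    _ = (4 ^ (m + 2) * H.card) ^ (m + 2) * (Fintype.card X ^ (m + 2)) ^ 2 := by
        rw [mul_pow, ← pow_mul, ← pow_mul, mul_comm 2 (m + 2)]

open Classical in
lemma card_noninj :
    (univ.filter (fun φ : Lab k → Fin n => ¬ Function.Injective φ)).card * n ≤
      Fintype.card (Lab k) ^ 2 * Fintype.card (Lab k → Fin n) := by
  set P : Lab k × Lab k → Finset (Lab k → Fin n) := fun p =>
    univ.filter (fun φ : Lab k → Fin n => p.1 ≠ p.2 ∧ φ p.1 = φ p.2) with hP
  have hsub : univ.filter (fun φ : Lab k → Fin n => ¬ Function.Injective φ) ⊆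
      univ.biUnion P := by
    intro φ hφ
    simp only [mem_filter, mem_univ, true_and] at hφ
    unfold Function.Injective at hφ
    push Not at hφ
    obtain ⟨γ, δ, h1, h2⟩ := hφ
    rw [Finset.mem_biUnion]
    refine ⟨(γ, δ), mem_univ _, ?_⟩
    simp only [hP, mem_filter, mem_univ, true_and]
    exact ⟨h2, h1⟩
  have hPc : ∀ p, (P p).card * n ≤ Fintype.card (Lab k → Fin n) := by
    intro p
    have hmaps : ∀ q ∈ (P p) ×ˢ (univ : Finset (Fin n)), Function.update q.1 p.1 q.2 ∈
        (univ : Finset (Lab k → Fin n)) := fun _ _ => mem_univ _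
    have hinj : Set.InjOn (fun q : (Lab k → Fin n) × Fin n => Function.update q.1 p.1 q.2)
        ((P p) ×ˢ (univ : Finset (Fin n)) : Finset ((Lab k → Fin n) × Fin n)) := by
      rintro ⟨φ, v⟩ hφ ⟨φ', v'⟩ hφ' heq
      simp only [hP, coe_product, Set.mem_prod, coe_filter, mem_univ, true_and,
        Set.mem_ofPred_eq, coe_univ, Set.mem_univ, and_true] at hφ hφ'
      simp only at heq
      have h1 : ∀ γ, γ ≠ p.1 → φ γ = φ' γ := by
        intro γ hγ
        have := congrFun heq γ
        rwa [Function.update_of_ne hγ, Function.update_of_ne hγ] at this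
      have h2 : v = v' := by
        have := congrFun heq p.1
        rwa [Function.update_self, Function.update_self] at this
      have h3 : φ = φ' := by
        funext γ
        by_cases hγ : γ = p.1
        · rw [hγ, hφ.2, hφ'.2]
          exact h1 _ hφ.1.symm
        · exact h1 γ hγ
      rw [h2, h3]
    have := Finset.card_le_card_of_injOn _ hmaps hinj
    rw [Finset.card_product, Finset.card_univ, Fintype.card_fin, Finset.card_univ] at this
    exact this
  calc (univ.filter (fun φ : Lab k → Fin n => ¬ Function.Injective φ)).card * n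
      ≤ (∑ p, (P p).card) * n :=
        Nat.mul_le_mul_right _ ((Finset.card_le_card hsub).trans Finset.card_biUnion_le)
    _ = ∑ p, (P p).card * n := by rw [Finset.sum_mul]
    _ ≤ ∑ p : Lab k × Lab k, Fintype.card (Lab k → Fin n) :=
        Finset.sum_le_sum fun p _ => hPc p
    _ = Fintype.card (Lab k) ^ 2 * Fintype.card (Lab k → Fin n) := by
        rw [Finset.sum_const, Finset.card_univ, Fintype.card_prod, smul_eq_mul, sq]

end Pool.Agent.Lib.MP_678664_lc
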