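import Mathlib

set_option autoImplicit false

/-!
# Votes over local universal tests, for graphs on a fixed vertex set
-/

namespace Pool.Agent.Lib.MP_678664_lc

/-- The graph property `Q` only looks at the vertices of `B`: two graphs which induce the same
graph on `B` are treated alike. -/
def LocalOn {n : ℕ} (B : Finset (Fin n)) (Q : SimpleGraph (Fin n) → Prop) : Prop :=
  ∀ G H : SimpleGraph (Fin n), (∀ u ∈ B, ∀ v ∈ B, (G.Adj u v ↔ H.Adj u v)) → (Q G ↔ Q H)

/-- `P` is a universal test of locality `b`: it is the conjunction of a family (of any size) of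
graph properties each of which only looks at some set of at most `b` vertices. -/
def UniversalTest {n : ℕ} (b : ℕ) (P : SimpleGraph (Fin n) → Prop) : Prop :=
  ∃ 𝒬 : Set (SimpleGraph (Fin n) → Prop),
    (∀ Q ∈ 𝒬, ∃ B : Finset (Fin n), B.card ≤ b ∧ LocalOn B Q) ∧ ∀ G, P G ↔ ∀ Q ∈ 𝒬, Q G

/-- `k`-clique on `n` vertices is decided by a real-weighted vote of `s` voters: voter `i` applies
`t` universal tests `P i 0, …, P i (t-1)` of locality `b` to the graph and casts the real number
`f i (outcomes of the tests)`; the graph has a `k`-clique exactly when the sum of the votes is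
positive. -/
def VoteDecidesClique (n k b t s : ℕ) : Prop :=
  ∃ (P : Fin s → Fin t → SimpleGraph (Fin n) → Prop) (f : Fin s → (Fin t → Prop) → ℝ),
    (∀ i j, UniversalTest b (P i j)) ∧
    ∀ G : SimpleGraph (Fin n), ¬ G.CliqueFree k ↔ 0 < ∑ i, f i (fun j => P i j G)

end Pool.Agent.Lib.MP_678664_lc
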