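import Pool.Agent.Lib.MP_678664_lc.Defs

set_option autoImplicit false

namespace Pool.Agent.Lib.MP_678664_lc

open Finset

variable {n k b : ℕ}

/-- labels: a part `i` and a vector of bits -/
abbrev Lab (k : ℕ) := Fin k × (Fin k → ZMod 2)

/-- environment: levels and bits -/
abbrev Env (n b : ℕ) := (Fin n → Fin b) × (Fin n → Fin n → Bool)

def Act (γ : Lab k) : Prop := ∑ j ∈ univ.erase γ.1, γ.2 j = 0

open Classical in
noncomputable def pick {α : Type*} (p : α → Prop) : Option α :=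
  if h : ∃ γ, p γ then some h.choose else none

noncomputable def lab (φ : Lab k → Fin n) (u : Fin n) : Option (Lab k) :=
  pick (fun γ => φ γ = u ∧ Act γ)

lemma lab_some {φ : Lab k → Fin n} {u : Fin n} {γ : Lab k}
    (h : lab φ u = some γ) : φ γ = u ∧ Act γ := by
  unfold lab pick at h
  split_ifs at h with h'
  · have := h'.choose_spec
    simp only [Option.some.injEq] at h
    rw [h] at this
    exact this

lemma lab_eq_some {φ : Lab k → Fin n} (hφ : Function.Injective φ)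
    {γ : Lab k} (h : Act γ) : lab φ (φ γ) = some γ := by
  unfold lab pick
  have h' : ∃ δ, φ δ = φ γ ∧ Act δ := ⟨γ, rfl, h⟩
  rw [dif_pos h']
  have := h'.choose_spec
  rw [hφ this.1]

lemma lab_none {φ : Lab k → Fin n} {u : Fin n} (h : ∀ γ, φ γ ≠ u) : lab φ u = none := by
  unfold lab pick
  rw [dif_neg]
  rintro ⟨γ, hγ, -⟩
  exact h γ hγ

/-- level of a vertex -/
noncomputable def lev (φ : Lab k → Fin n) (e : Env n b) (u : Fin n) : ℕ :=
  match lab φ u with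
  | some γ => (γ.1 : ℕ) % b
  | none => e.1 u

lemma lev_some {φ : Lab k → Fin n} {e : Env n b} {u : Fin n} {γ : Lab k}
    (h : lab φ u = some γ) : lev φ e u = (γ.1 : ℕ) % b := by
  unfold lev; rw [h]

lemma lev_none {φ : Lab k → Fin n} {e : Env n b} {u : Fin n}
    (h : lab φ u = none) : lev φ e u = e.1 u := by
  unfold lev; rw [h]

lemma lev_lt (hb : 0 < b) (φ : Lab k → Fin n) (e : Env n b) (u : Fin n) :
    lev φ e u < b := by
  rcases h : lab φ u with _ | γ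
  · rw [lev_none h]; exact (e.1 u).2
  · rw [lev_some h]; exact Nat.mod_lt _ hb

/-- the random graph: `z` is the twist, `φ` the placement of the labels, `e` the environment -/
noncomputable def gr (φ : Lab k → Fin n) (z : Fin k → Fin k → ZMod 2) (e : Env n b) :
    SimpleGraph (Fin n) where
  Adj u v := u ≠ v ∧
    ((∃ γ δ, lab φ u = some γ ∧ lab φ v = some δ ∧ γ.1 ≠ δ.1 ∧
        γ.2 δ.1 + z γ.1 δ.1 = δ.2 γ.1 + z δ.1 γ.1) ∨
     ((lab φ u = none ∨ lab φ v = none) ∧ lev φ e u ≠ lev φ e v ∧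
       xor (e.2 u v) (e.2 v u) = true))
  symm := ⟨fun u v h => by
    obtain ⟨h1, h2 | h2⟩ := h
    · obtain ⟨γ, δ, a, b, c, d⟩ := h2
      exact ⟨h1.symm, Or.inl ⟨δ, γ, b, a, c.symm, d.symm⟩⟩
    · refine ⟨h1.symm, Or.inr ⟨h2.1.symm, h2.2.1.symm, ?_⟩⟩
      rw [Bool.xor_comm]; exact h2.2.2⟩
  loopless := ⟨fun u h => h.1 rfl⟩

lemma gr_congr {φ : Lab k → Fin n} {z : Fin k → Fin k → ZMod 2} {e e' : Env n b} {u v : Fin n}
    (h1 : e.1 u = e'.1 u) (h2 : e.1 v = e'.1 v) (h3 : e.2 u v = e'.2 u v)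
    (h4 : e.2 v u = e'.2 v u) : (gr φ z e).Adj u v ↔ (gr φ z e').Adj u v := by
  have lu : lev φ e u = lev φ e' u := by unfold lev; rw [h1]
  have lv : lev φ e v = lev φ e' v := by unfold lev; rw [h2]
  unfold gr
  simp only [lu, lv, h3, h4]

/-- changing the twist at the pair `(p, q)` only changes the pairs between part `p` and part
`q`. -/
lemma gr_twist {φ : Lab k → Fin n} {z z' : Fin k → Fin k → ZMod 2} {e : Env n b}
    {p q : Fin k} (hz : ∀ i j, ¬ (i = p ∧ j = q) → z i j = z' i j) {u v : Fin n}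
    (h1 : ¬ ((∃ a, φ (p, a) = u) ∧ ∃ a, φ (q, a) = v))
    (h2 : ¬ ((∃ a, φ (p, a) = v) ∧ ∃ a, φ (q, a) = u)) :
    (gr φ z e).Adj u v ↔ (gr φ z' e).Adj u v := by
  have key : ∀ γ δ : Lab k, lab φ u = some γ → lab φ v = some δ →
      z γ.1 δ.1 = z' γ.1 δ.1 ∧ z δ.1 γ.1 = z' δ.1 γ.1 := by
    intro γ δ hγ hδ
    have hγ' := (lab_some hγ).1
    have hδ' := (lab_some hδ).1
    constructor
    · apply hz
      rintro ⟨rfl, rfl⟩
      exact h1 ⟨⟨γ.2, hγ'⟩, ⟨δ.2, hδ'⟩⟩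
    · apply hz
      rintro ⟨rfl, rfl⟩
      exact h2 ⟨⟨δ.2, hδ'⟩, ⟨γ.2, hγ'⟩⟩
  unfold gr
  simp only
  refine and_congr_right fun _ => or_congr ?_ Iff.rfl
  constructor
  · rintro ⟨γ, δ, a, b, c, d⟩
    obtain ⟨k1, k2⟩ := key γ δ a b
    exact ⟨γ, δ, a, b, c, by rw [← k1, ← k2]; exact d⟩
  · rintro ⟨γ, δ, a, b, c, d⟩
    obtain ⟨k1, k2⟩ := key γ δ a b
    exact ⟨γ, δ, a, b, c, by rw [k1, k2]; exact d⟩

lemma gr_plain {φ : Lab k → Fin n} {z : Fin k → Fin k → ZMod 2} {e : Env n b} {u v : Fin n}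
    (huv : u ≠ v) (hu : lab φ u = none) (hl : lev φ e u ≠ lev φ e v) :
    (gr φ z e).Adj u v ↔ xor (e.2 u v) (e.2 v u) = true := by
  unfold gr
  simp [huv, hu, hl]

end Pool.Agent.Lib.MP_678664_lc
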