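import Pool.Agent.Lib.MP_678664_lc.Gadget

set_option autoImplicit false

namespace Pool.Agent.Lib.MP_678664_lc

open Finset

variable {n k b : ℕ}

def Agree (B : Finset (Fin n)) (G H : SimpleGraph (Fin n)) : Prop :=
  ∀ u ∈ B, ∀ v ∈ B, (G.Adj u v ↔ H.Adj u v)

open Classical in
noncomputable def pat (A : Finset (Fin n)) (G : SimpleGraph (Fin n)) : Finset (Fin n × Fin n) :=
  (A ×ˢ A).filter (fun p => G.Adj p.1 p.2)

lemma pat_eq_iff {A : Finset (Fin n)} {G H : SimpleGraph (Fin n)} :
    pat A G = pat A H ↔ Agree A G H := by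
  classical
  unfold pat Agree
  constructor
  · intro h u hu v hv
    have := Finset.ext_iff.1 h (u, v)
    simp only [mem_filter, mem_product, hu, hv, and_self, true_and] at this
    exact this
  · intro h
    ext ⟨u, v⟩
    simp only [mem_filter, mem_product]
    refine and_congr_right fun huv => h u huv.1 v huv.2

lemma pat_subset {A : Finset (Fin n)} {G : SimpleGraph (Fin n)} : pat A G ⊆ A ×ˢ A := by
  classical
  unfold pat
  exact Finset.filter_subset _ _

/-- bound on the number of configurations of the records on `b` vertices -/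
def KK (b : ℕ) : ℕ := b ^ b * 2 ^ (b * b)

lemma KK_pos (hb : 0 < b) : 0 < KK b := by unfold KK; positivity

/-- surviving environments -/
noncomputable def Surv (φ : Lab k → Fin n) (z : Fin k → Fin k → ZMod 2) (A : Finset (Fin n))
    (π : Finset (Fin n × Fin n)) (H : Finset (Fin n) → SimpleGraph (Fin n))
    (𝓔 : Finset (Finset (Fin n))) : Finset (Env n b) := by
  classical
  exact univ.filter (fun e : Env n b => pat A (gr φ z e) = π ∧
    ∀ D ∈ 𝓔, ¬ Agree (A ∪ D) (gr φ z e) (H D))

lemma mem_Surv {φ : Lab k → Fin n} {z : Fin k → Fin k → ZMod 2} {A : Finset (Fin n)}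
    {π : Finset (Fin n × Fin n)} {H : Finset (Fin n) → SimpleGraph (Fin n)}
    {𝓔 : Finset (Finset (Fin n))} {e : Env n b} :
    e ∈ Surv φ z A π H 𝓔 ↔ pat A (gr φ z e) = π ∧
      ∀ D ∈ 𝓔, ¬ Agree (A ∪ D) (gr φ z e) (H D) := by
  unfold Surv
  simp

lemma exists_levels (φ : Lab k → Fin n) (A D : Finset (Fin n))
    (hAD : Disjoint D A) (hcard : (A ∪ D).card ≤ b) (e : Env n b) :
    ∃ ν : Fin n → Fin b, Set.InjOn ν D ∧ ∀ u ∈ D, ∀ v ∈ A, (ν u : ℕ) ≠ lev φ e v := by
  classical
  rcases D.eq_empty_or_nonempty with rfl | ⟨d0, hd0⟩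
  · rcases Nat.eq_zero_or_pos b with rfl | hb
    · exact ⟨e.1, by simp, by simp⟩
    · exact ⟨fun _ => ⟨0, hb⟩, by simp, by simp⟩
  have hAcard : A.card + D.card ≤ b := by
    rw [← Finset.card_union_of_disjoint hAD.symm]; exact hcard
  have hb : 0 < b := by
    have : 0 < D.card := Finset.card_pos.2 ⟨d0, hd0⟩
    omega
  set F : Finset (Fin b) := univ \ (A.image (fun v => (⟨lev φ e v, lev_lt hb φ e v⟩ : Fin b)))
    with hF
  have hFcard : D.card ≤ F.card := by
    have h1 : F.card = b - (A.image (fun v => (⟨lev φ e v, lev_lt hb φ e v⟩ : Fin b))).card := by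
      rw [hF, Finset.card_sdiff_of_subset (Finset.subset_univ _), Finset.card_univ,
        Fintype.card_fin]
    have h2 : (A.image (fun v => (⟨lev φ e v, lev_lt hb φ e v⟩ : Fin b))).card ≤ A.card :=
      Finset.card_image_le
    omega
  have hFc : Fintype.card D ≤ F.card := by
    rw [Fintype.card_coe]; exact hFcard
  obtain ⟨f, hf⟩ := Function.Embedding.exists_of_card_le_finset hFc
  refine ⟨fun u => if h : u ∈ D then f ⟨u, h⟩ else ⟨0, hb⟩, ?_, ?_⟩
  · intro u hu v hv huv
    have hu' : u ∈ D := hu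
    have hv' : v ∈ D := hv
    simp only [dif_pos hu', dif_pos hv'] at huv
    have := f.injective huv
    exact congrArg Subtype.val this
  · intro u hu v hv heq
    simp only [dif_pos hu] at heq
    have h1 : f ⟨u, hu⟩ ∈ (F : Set (Fin b)) := hf ⟨_, rfl⟩
    rw [hF] at h1
    simp only [coe_sdiff, coe_univ, coe_image, Set.mem_sdiff, Set.mem_univ, true_and] at h1
    apply h1
    exact ⟨v, hv, Fin.ext heq.symm⟩

open Classical in
/-- reset the records on `D` so that the graph becomes `H` on `A ∪ D` -/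
noncomputable def reset (A D : Finset (Fin n)) (H : SimpleGraph (Fin n)) (ν : Fin n → Fin b)
    (e : Env n b) : Env n b :=
  (fun u => if u ∈ D then ν u else e.1 u,
   fun u v => if u ∈ D ∧ (v ∈ A ∨ (v ∈ D ∧ u < v)) then xor (e.2 v u) (decide (H.Adj u v))
    else e.2 u v)

lemma reset_agree (φ : Lab k → Fin n) (z : Fin k → Fin k → ZMod 2) (A D : Finset (Fin n))
    (hAD : Disjoint D A) (hφ : ∀ γ, φ γ ∉ D) (H : SimpleGraph (Fin n)) (ν : Fin n → Fin b)
    (e : Env n b) (hν : Set.InjOn ν D) (hν' : ∀ u ∈ D, ∀ v ∈ A, (ν u : ℕ) ≠ lev φ e v)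
    (hA : Agree A (gr φ z e) H) : Agree (A ∪ D) (gr φ z (reset A D H ν e)) H := by
  classical
  have hnot : ∀ v ∈ A, v ∉ D := fun v hv hD => (Finset.disjoint_left.1 hAD hD) hv
  have hnone : ∀ u ∈ D, lab φ u = none := by
    intro u hu
    apply lab_none
    rintro γ rfl
    exact hφ γ hu
  have hlevD : ∀ u ∈ D, lev φ (reset A D H ν e) u = ν u := by
    intro u hu
    rw [lev_none (hnone u hu)]
    simp [reset, hu]
  have hlevA : ∀ v ∈ A, lev φ (reset A D H ν e) v = lev φ e v := by
    intro v hv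
    unfold lev
    rcases h : lab φ v with _ | γ
    · simp [reset, hnot v hv]
    · rfl
  have hDA : ∀ u ∈ D, ∀ v ∈ A, ((gr φ z (reset A D H ν e)).Adj u v ↔ H.Adj u v) := by
    intro u hu v hv
    have huv : u ≠ v := by rintro rfl; exact hnot u hv hu
    rw [gr_plain huv (hnone u hu) (by rw [hlevD u hu, hlevA v hv]; exact hν' u hu v hv)]
    simp [reset, hu, hv, hnot v hv]
    cases e.2 v u <;> simp
  have hDD : ∀ u ∈ D, ∀ v ∈ D, u < v →
      ((gr φ z (reset A D H ν e)).Adj u v ↔ H.Adj u v) := by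
    intro u hu v hv huv
    have hne : (ν u : ℕ) ≠ ν v := by
      intro h
      exact huv.ne (hν hu hv (Fin.ext h))
    rw [gr_plain huv.ne (hnone u hu) (by rw [hlevD u hu, hlevD v hv]; exact hne)]
    have huA : u ∉ A := fun h => hnot u h hu
    simp [reset, hu, hv, huv, huA, not_lt.2 huv.le]
    cases e.2 v u <;> simp
  intro u hu v hv
  rcases Finset.mem_union.1 hu with hu | hu <;> rcases Finset.mem_union.1 hv with hv | hv
  · rw [← hA u hu v hv]
    apply gr_congr
    · simp [reset, hnot u hu]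
    · simp [reset, hnot v hv]
    · simp [reset, hnot u hu]
    · simp [reset, hnot v hv]
  · rw [SimpleGraph.adj_comm, hDA v hv u hu, SimpleGraph.adj_comm]
  · exact hDA u hu v hv
  · rcases lt_trichotomy u v with h | h | h
    · exact hDD u hu v hv h
    · subst h; simp
    · rw [SimpleGraph.adj_comm, hDD v hv u hu h, SimpleGraph.adj_comm]

lemma reset_adj (φ : Lab k → Fin n) (z : Fin k → Fin k → ZMod 2) (A D : Finset (Fin n))
    (H : SimpleGraph (Fin n)) (ν : Fin n → Fin b) (e : Env n b) {u v : Fin n}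
    (hu : u ∉ D) (hv : v ∉ D) :
    (gr φ z (reset A D H ν e)).Adj u v ↔ (gr φ z e).Adj u v := by
  apply gr_congr
  · simp [reset, hu]
  · simp [reset, hv]
  · simp [reset, hu]
  · simp [reset, hv]

lemma surv_step (φ : Lab k → Fin n) (z : Fin k → Fin k → ZMod 2) (A : Finset (Fin n))
    (π : Finset (Fin n × Fin n)) (H : Finset (Fin n) → SimpleGraph (Fin n))
    (𝓔 : Finset (Finset (Fin n))) (D : Finset (Fin n))
    (hdisj : ∀ D' ∈ 𝓔, Disjoint D' D)
    (hA : Disjoint D A) (hφ : ∀ γ, φ γ ∉ D) (hcard : (A ∪ D).card ≤ b)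
    (hpat : pat A (H D) = π) (hne : D.Nonempty) :
    (Surv φ z A π H 𝓔 : Finset (Env n b)).card ≤
      KK b * ((Surv φ z A π H 𝓔 : Finset (Env n b)) \ Surv φ z A π H (insert D 𝓔)).card := by
  classical
  have hnot : ∀ v ∈ A, v ∉ D := fun v hv hD => (Finset.disjoint_left.1 hA hD) hv
  have hb : 0 < b := by
    have : 0 < (A ∪ D).card := Finset.card_pos.2 (hne.mono Finset.subset_union_right)
    omega
  choose ν hν hν' using exists_levels (b := b) φ A D hA hcard
  -- an enumeration of `A ∪ D`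
  obtain ⟨g, hg⟩ : ∃ g : Fin b → Fin n, ∀ u ∈ A ∪ D, ∃ c, g c = u := by
    obtain ⟨d0, hd0⟩ := hne
    have hc : Fintype.card (A ∪ D : Finset (Fin n)) ≤ (univ : Finset (Fin b)).card := by
      rw [Fintype.card_coe, Finset.card_univ, Fintype.card_fin]; exact hcard
    obtain ⟨f, -⟩ := Function.Embedding.exists_of_card_le_finset hc
    refine ⟨fun c => if h : ∃ u, f u = c then h.choose.1 else d0, ?_⟩
    intro u hu
    refine ⟨f ⟨u, hu⟩, ?_⟩
    have h : ∃ u', f u' = f ⟨u, hu⟩ := ⟨_, rfl⟩
    simp only [dif_pos h]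
    have := f.injective h.choose_spec
    rw [this]
  set T := (Surv φ z A π H 𝓔 : Finset (Env n b)) \ Surv φ z A π H (insert D 𝓔) with hT
  set F : Env n b → Env n b × ((Fin b → Fin b) × (Fin b → Fin b → Bool)) := fun e =>
    (reset A D (H D) (ν e) e, (fun c => e.1 (g c), fun c c' => e.2 (g c) (g c'))) with hF
  have hmaps : ∀ e ∈ (Surv φ z A π H 𝓔 : Finset (Env n b)), F e ∈
      T ×ˢ (univ : Finset ((Fin b → Fin b) × (Fin b → Fin b → Bool))) := by
    intro e he
    rw [Finset.mem_product]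
    refine ⟨?_, mem_univ _⟩
    rw [mem_Surv] at he
    have hAg : Agree A (gr φ z e) (H D) := by
      rw [← pat_eq_iff, he.1, hpat]
    have hag := reset_agree φ z A D hA hφ (H D) (ν e) e (hν e) (hν' e) hAg
    simp only [hF, hT]
    rw [Finset.mem_sdiff, mem_Surv, mem_Surv]
    refine ⟨⟨?_, ?_⟩, ?_⟩
    · rw [← hpat, pat_eq_iff]
      intro u hu v hv
      exact hag u (Finset.mem_union_left _ hu) v (Finset.mem_union_left _ hv)
    · intro D' hD' hbad
      apply he.2 D' hD'
      have hnD : ∀ v ∈ A ∪ D', v ∉ D := by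
        intro v hv
        rcases Finset.mem_union.1 hv with hv | hv
        · exact hnot v hv
        · exact Finset.disjoint_left.1 (hdisj D' hD') hv
      intro u hu v hv
      rw [← hbad u hu v hv]
      exact (reset_adj φ z A D (H D) (ν e) e (hnD u hu) (hnD v hv)).symm
    · intro h
      exact h.2 D (Finset.mem_insert_self _ _) hag
  have hinj : Set.InjOn F (Surv φ z A π H 𝓔 : Finset (Env n b)) := by
    intro e _ e' _ heq
    simp only [hF, Prod.mk.injEq] at heq
    obtain ⟨h0, h1, h2⟩ := heq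
    have h01 := congrArg Prod.fst h0
    have h02 := congrArg Prod.snd h0
    have hD1 : ∀ u ∈ A ∪ D, e.1 u = e'.1 u := by
      intro u hu
      obtain ⟨c, rfl⟩ := hg u hu
      exact congrFun h1 c
    have hD2 : ∀ u ∈ A ∪ D, ∀ v ∈ A ∪ D, e.2 u v = e'.2 u v := by
      intro u hu v hv
      obtain ⟨c, rfl⟩ := hg u hu
      obtain ⟨c', rfl⟩ := hg v hv
      exact congrFun (congrFun h2 c) c'
    apply Prod.ext
    · funext u
      by_cases hu : u ∈ D
      · exact hD1 u (Finset.mem_union_right _ hu)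
      · have := congrFun h01 u
        simpa [reset, hu] using this
    · funext u v
      by_cases huv : u ∈ D ∧ (v ∈ A ∨ (v ∈ D ∧ u < v))
      · refine hD2 u (Finset.mem_union_right _ huv.1) v ?_
        rcases huv.2 with h | h
        · exact Finset.mem_union_left _ h
        · exact Finset.mem_union_right _ h.1
      · have := congrFun (congrFun h02 u) v
        simpa [reset, huv] using this
  have hle := Finset.card_le_card_of_injOn F hmaps hinj
  rw [Finset.card_product] at hle
  have hcode : (univ : Finset ((Fin b → Fin b) × (Fin b → Fin b → Bool))).card = KK b := by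
    rw [Finset.card_univ, Fintype.card_prod, Fintype.card_fun, Fintype.card_fun,
      Fintype.card_fun, Fintype.card_fin, Fintype.card_bool, ← pow_mul]
    rfl
  rw [hcode, mul_comm] at hle
  exact hle

/-- The kill lemma. -/
theorem kill (φ : Lab k → Fin n) (z : Fin k → Fin k → ZMod 2) (A : Finset (Fin n))
    (π : Finset (Fin n × Fin n)) (H : Finset (Fin n) → SimpleGraph (Fin n))
    (𝓔 : Finset (Finset (Fin n)))
    (hdisj : (𝓔 : Set (Finset (Fin n))).PairwiseDisjoint id)
    (hA : ∀ D ∈ 𝓔, Disjoint D A) (hφ : ∀ D ∈ 𝓔, ∀ γ, φ γ ∉ D)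
    (hcard : ∀ D ∈ 𝓔, (A ∪ D).card ≤ b)
    (hpat : ∀ D ∈ 𝓔, pat A (H D) = π) (hne : ∀ D ∈ 𝓔, D.Nonempty) :
    KK b ^ 𝓔.card * (Surv φ z A π H 𝓔 : Finset (Env n b)).card ≤
      (KK b - 1) ^ 𝓔.card * Fintype.card (Env n b) := by
  classical
  induction 𝓔 using Finset.induction_on with
  | empty =>
    simp only [card_empty, pow_zero, one_mul]
    exact Finset.card_le_univ _
  | insert D 𝓔 hD ih =>
    have ih' := ih (hdisj.subset (by simp)) (fun D' h => hA D' (Finset.mem_insert_of_mem h))
      (fun D' h => hφ D' (Finset.mem_insert_of_mem h))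
      (fun D' h => hcard D' (Finset.mem_insert_of_mem h))
      (fun D' h => hpat D' (Finset.mem_insert_of_mem h))
      (fun D' h => hne D' (Finset.mem_insert_of_mem h))
    have hmem := Finset.mem_insert_self D 𝓔
    have hd : ∀ D' ∈ 𝓔, Disjoint D' D := by
      intro D' hD'
      exact hdisj (by simp [hD']) (by simp) (fun h => hD (h ▸ hD'))
    have hstep := surv_step (b := b) φ z A π H 𝓔 D hd (hA D hmem) (hφ D hmem) (hcard D hmem)
      (hpat D hmem) (hne D hmem)
    have hsub : (Surv φ z A π H (insert D 𝓔) : Finset (Env n b)) ⊆ Surv φ z A π H 𝓔 := by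
      intro e he
      rw [mem_Surv] at he ⊢
      exact ⟨he.1, fun D' hD' => he.2 D' (Finset.mem_insert_of_mem hD')⟩
    rw [Finset.card_sdiff_of_subset hsub] at hstep
    have hle := Finset.card_le_card hsub
    rw [Finset.card_insert_of_notMem hD]
    set x := (Surv φ z A π H (insert D 𝓔) : Finset (Env n b)).card
    set y := (Surv φ z A π H 𝓔 : Finset (Env n b)).card
    set K := KK b
    set m := 𝓔.card
    have h1 : K * x ≤ (K - 1) * y := by
      rw [Nat.mul_sub] at hstep
      rw [Nat.sub_mul, one_mul]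
      have : K * x ≤ K * y := Nat.mul_le_mul_left _ hle
      omega
    calc K ^ (m + 1) * x = K ^ m * (K * x) := by ring
      _ ≤ K ^ m * ((K - 1) * y) := Nat.mul_le_mul_left _ h1
      _ = (K - 1) * (K ^ m * y) := by ring
      _ ≤ (K - 1) * ((K - 1) ^ m * Fintype.card (Env n b)) := Nat.mul_le_mul_left _ ih'
      _ = (K - 1) ^ (m + 1) * Fintype.card (Env n b) := by ring

end Pool.Agent.Lib.MP_678664_lc
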