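import Pool.Agent.Lib.MP_678664_lc.Voter

set_option autoImplicit false

namespace Pool.Agent.Lib.MP_678664_lc

open Finset

variable {n k b : ℕ}

lemma badSet_card_real (𝒬 : Set (SimpleGraph (Fin n) → Prop)) (hb : 0 < b) (R0 : ℕ)
    (hR0 : 0 < R0) (φ : Lab k → Fin n) (z : Fin k → Fin k → ZMod 2) :
    ((badSet 𝒬 b (R0 + Fintype.card (Lab k)) φ z).card : ℝ) ≤
      (b * (tau b (R0 + Fintype.card (Lab k)) : ℝ) ^ b * 2 ^ (b * b)) *
        (1 - 1 / (KK b : ℝ)) ^ R0 * Fintype.card (Env n b) := by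
  have h := badSet_card (n := n) (k := k) 𝒬 hb R0 hR0 φ z
  have hK : 0 < KK b := KK_pos hb
  have hK' : (0 : ℝ) < KK b := by exact_mod_cast hK
  have h' : ((KK b ^ R0 * (badSet 𝒬 b (R0 + Fintype.card (Lab k)) φ z).card : ℕ) : ℝ) ≤
      (((b * tau b (R0 + Fintype.card (Lab k)) ^ b * 2 ^ (b * b)) *
        ((KK b - 1) ^ R0 * Fintype.card (Env n b)) : ℕ) : ℝ) := by exact_mod_cast h
  push_cast at h'
  rw [Nat.cast_sub hK] at h'
  have hq : (1 - 1 / (KK b : ℝ)) ^ R0 = ((KK b : ℝ) - 1) ^ R0 / (KK b : ℝ) ^ R0 := by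
    rw [← div_pow]
    congr 1
    field_simp
  rw [hq]
  have hpow : (0 : ℝ) < (KK b : ℝ) ^ R0 := by positivity
  rw [mul_div_assoc', div_mul_eq_mul_div, le_div_iff₀ hpow]
  calc ((badSet 𝒬 b (R0 + Fintype.card (Lab k)) φ z).card : ℝ) * (KK b : ℝ) ^ R0
      = (KK b : ℝ) ^ R0 * ((badSet 𝒬 b (R0 + Fintype.card (Lab k)) φ z).card : ℝ) := by ring
    _ ≤ _ := h'
    _ = _ := by push_cast; ring

theorem core (hb : 0 < b) (hbk : 2 * b ≤ k) (hn : 0 < n) {t S : ℕ}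
    (h : VoteDecidesClique n k b t S) (R0 : ℕ) (hR0 : 0 < R0) :
    1 - (Fintype.card (Lab k) : ℝ) ^ 2 / n ≤
      S * (t * 2 ^ (k * k) * ((b * (tau b (R0 + Fintype.card (Lab k)) : ℝ) ^ b * 2 ^ (b * b)) *
        (1 - 1 / (KK b : ℝ)) ^ R0) +
        Real.sqrt ((4 ^ k * (t * ((b + 1) * ((tau b (R0 + Fintype.card (Lab k)) : ℝ) ^ b *
          (b * b)))) / (n : ℝ) ^ 2) ^ k)) := by
  classical
  obtain ⟨P, f, hU, hdec⟩ := h
  choose 𝒬 hloc hP using hU
  obtain ⟨M, hM⟩ : ∃ M, M = Fintype.card (Lab k) := ⟨_, rfl⟩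
  obtain ⟨R, hR⟩ : ∃ R, R = R0 + Fintype.card (Lab k) := ⟨_, rfl⟩
  obtain ⟨E, hE⟩ : ∃ E, E = Fintype.card (Env n b) := ⟨_, rfl⟩
  obtain ⟨Φ, hΦ⟩ : ∃ Φ, Φ = Fintype.card (Lab k → Fin n) := ⟨_, rfl⟩
  rw [← hR, ← hM]
  have : Nonempty (Fin n) := ⟨⟨0, hn⟩⟩
  have : Nonempty (Fin b) := ⟨⟨0, hb⟩⟩
  have hEpos : (0 : ℝ) < E := by
    rw [hE]; exact_mod_cast Fintype.card_pos
  have hΦpos : (0 : ℝ) < Φ := by
    rw [hΦ]; exact_mod_cast Fintype.card_pos
  have hn' : (0 : ℝ) < n := by exact_mod_cast hn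
  -- the injective placements
  set I : Finset (Lab k → Fin n) := univ.filter (fun φ => Function.Injective φ) with hI
  set hitI : Fin S → Finset (Lab k → Fin n) := fun i =>
    univ.filter (fun φ : Lab k → Fin n => ∀ p q, p ≠ q → ∃ a a', (φ (p, a), φ (q, a')) ∈
      (univ : Finset (Fin t)).biUnion (fun j => HH (𝒬 i j) b R)) with hhit
  have hIcard : (Φ : ℝ) - (M : ℝ) ^ 2 * Φ / n ≤ (I.card : ℝ) := by
    have h1 := card_noninj (n := n) (k := k)
    rw [← hM, ← hΦ] at h1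
    have h2 := Finset.card_filter_add_card_filter_not (s := (univ : Finset (Lab k → Fin n)))
      (fun φ => Function.Injective φ)
    rw [Finset.card_univ, ← hΦ, ← hI] at h2
    have h1' : (((univ.filter (fun φ : Lab k → Fin n => ¬ Function.Injective φ)).card : ℕ) : ℝ)
        * n ≤ (M : ℝ) ^ 2 * Φ := by exact_mod_cast h1
    have h2' : (I.card : ℝ) +
        (((univ.filter (fun φ : Lab k → Fin n => ¬ Function.Injective φ)).card : ℕ) : ℝ) = Φ := by
      exact_mod_cast h2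
    rw [← le_div_iff₀ hn'] at h1'
    linarith
  -- cover
  set A1 : Fin S → Finset ((Lab k → Fin n) × Env n b) := fun i =>
    (univ : Finset (Fin t × (Fin k → Fin k → ZMod 2))).biUnion (fun js =>
          (univ : Finset (Lab k → Fin n)).biUnion (fun φ =>
            {φ} ×ˢ badSet (𝒬 i js.1) b R φ js.2)) with hA1
  set A2 : Fin S → Finset ((Lab k → Fin n) × Env n b) := fun i =>
    hitI i ×ˢ (univ : Finset (Env n b)) with hA2
  have hcover : I ×ˢ (univ : Finset (Env n b)) ⊆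
      (univ : Finset (Fin S)).biUnion (fun i => A1 i ∪ A2 i) := by
    rintro ⟨φ, e⟩ hφe
    rw [Finset.mem_product] at hφe
    have hφ : Function.Injective φ := (Finset.mem_filter.1 hφe.1).2
    obtain ⟨i, hi⟩ := voter_exists (b := b) hb hbk R P f 𝒬 hloc hP hdec φ hφ e
    rw [Finset.mem_biUnion]
    refine ⟨i, mem_univ _, ?_⟩
    rw [Finset.mem_union]
    rcases hi with ⟨j, z, hjs⟩ | hi
    · left
      rw [hA1]
      simp only
      rw [Finset.mem_biUnion]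
      refine ⟨(j, z), mem_univ _, ?_⟩
      rw [Finset.mem_biUnion]
      exact ⟨φ, mem_univ _, by rw [Finset.mem_product]; exact ⟨Finset.mem_singleton_self _, hjs⟩⟩
    · right
      rw [hA2]
      simp only
      rw [Finset.mem_product]
      exact ⟨by rw [hhit]; simp only [mem_filter, mem_univ, true_and]; exact hi, mem_univ _⟩
  have hcard : I.card * E ≤ ∑ i, ((A1 i).card + (A2 i).card) := by
    have h1 := Finset.card_le_card hcover
    rw [Finset.card_product, Finset.card_univ (α := Env n b), ← hE] at h1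
    exact h1.trans (Finset.card_biUnion_le.trans
      (Finset.sum_le_sum fun i _ => Finset.card_union_le _ _))
  obtain ⟨β, hβ⟩ : ∃ β : ℝ, β = (b * (tau b R : ℝ) ^ b * 2 ^ (b * b)) *
    (1 - 1 / (KK b : ℝ)) ^ R0 := ⟨_, rfl⟩
  obtain ⟨δ, hδ⟩ : ∃ δ : ℝ, δ = Real.sqrt ((4 ^ k * (t * ((b + 1) * ((tau b R : ℝ) ^ b *
    (b * b)))) / (n : ℝ) ^ 2) ^ k) := ⟨_, rfl⟩
  rw [← hβ, ← hδ]
  have hpart1 : ∀ i : Fin S, (((A1 i).card : ℕ) : ℝ) ≤ t * 2 ^ (k * k) * (Φ * (β * E)) := by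
    intro i
    have h1 : (A1 i).card ≤ ∑ js : Fin t × (Fin k → Fin k → ZMod 2), ∑ φ : Lab k → Fin n,
          (badSet (𝒬 i js.1) b R φ js.2).card := by
      refine Finset.card_biUnion_le.trans (Finset.sum_le_sum fun js _ => ?_)
      refine Finset.card_biUnion_le.trans (Finset.sum_le_sum fun φ _ => ?_)
      rw [Finset.card_product, Finset.card_singleton, one_mul]
    calc (((A1 i).card : ℕ) : ℝ) ≤ ((∑ js : Fin t × (Fin k → Fin k → ZMod 2), ∑ φ : Lab k → Fin n,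
          (badSet (𝒬 i js.1) b R φ js.2).card : ℕ) : ℝ) := by exact_mod_cast h1
      _ = ∑ js : Fin t × (Fin k → Fin k → ZMod 2), ∑ φ : Lab k → Fin n,
          ((badSet (𝒬 i js.1) b R φ js.2).card : ℝ) := by push_cast; rfl
      _ ≤ ∑ js : Fin t × (Fin k → Fin k → ZMod 2), ∑ φ : Lab k → Fin n, β * E := by
          refine Finset.sum_le_sum fun js _ => Finset.sum_le_sum fun φ _ => ?_
          have := badSet_card_real (𝒬 i js.1) hb R0 hR0 φ js.2
          rw [← hR, ← hE, ← hβ] at this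
          exact this
      _ = t * 2 ^ (k * k) * (Φ * (β * E)) := by
          rw [Finset.sum_const, Finset.sum_const, Finset.card_univ, Finset.card_univ,
            ← hΦ, Fintype.card_prod, Fintype.card_fun (α := Fin k) (β := Fin k → ZMod 2),
            Fintype.card_fun (α := Fin k) (β := ZMod 2), ZMod.card,
            Fintype.card_fin, Fintype.card_fin, ← pow_mul]
          simp only [nsmul_eq_mul]
          push_cast
          ring
  have hpart2 : ∀ i : Fin S, (((A2 i).card : ℕ) : ℝ) ≤ δ * Φ * E := by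
    intro i
    have h0 : (A2 i).card = (hitI i).card * E := by
      rw [hA2]
      simp only
      rw [Finset.card_product, Finset.card_univ, hE]
    rw [h0]
    push_cast
    refine mul_le_mul_of_nonneg_right ?_ hEpos.le
    set W := (univ : Finset (Fin t)).biUnion (fun j => HH (𝒬 i j) b R) with hW
    have hWc : W.card ≤ t * ((b + 1) * (tau b R ^ b * (b * b))) := by
      rw [hW]
      refine (Finset.card_biUnion_le_card_mul _ _ ((b + 1) * (tau b R ^ b * (b * b))) ?_).trans ?_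
      · intro j _
        exact HH_card _ b R hb (by omega)
      · rw [Finset.card_univ, Fintype.card_fin]
    have h1 := card_sens (k := k) (by omega) W
    rw [← hΦ] at h1
    have h2 : (n : ℝ) ^ (2 * k) * (((hitI i).card : ℕ) : ℝ) ^ 2 ≤
        (4 ^ k * (W.card : ℝ)) ^ k * (Φ : ℝ) ^ 2 := by
      have h3 : n ^ (2 * k) * (hitI i).card ^ 2 ≤ (4 ^ k * W.card) ^ k * Φ ^ 2 := h1
      exact_mod_cast h3
    have hnk : (0 : ℝ) < (n : ℝ) ^ (2 * k) := by positivity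
    have h4 : (((hitI i).card : ℕ) : ℝ) ^ 2 ≤ ((4 ^ k * (t * ((b + 1) * ((tau b R : ℝ) ^ b *
        (b * b)))) / (n : ℝ) ^ 2) ^ k) * (Φ : ℝ) ^ 2 := by
      have h5 : (4 ^ k * (W.card : ℝ)) ^ k ≤ (4 ^ k * (t * ((b + 1) * ((tau b R : ℝ) ^ b *
          (b * b))))) ^ k := by
        refine pow_le_pow_left₀ (by positivity) ?_ k
        refine mul_le_mul_of_nonneg_left ?_ (by positivity)
        exact_mod_cast hWc
      have h6 := h2.trans (mul_le_mul_of_nonneg_right h5 (by positivity))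
      rw [div_pow, ← pow_mul (n : ℝ) 2 k, div_mul_eq_mul_div, le_div_iff₀ hnk, mul_comm]
      exact h6
    rw [hδ]
    have h7 : (((hitI i).card : ℕ) : ℝ) = Real.sqrt ((((hitI i).card : ℕ) : ℝ) ^ 2) :=
      (Real.sqrt_sq (by positivity)).symm
    have h8 : (Φ : ℝ) = Real.sqrt ((Φ : ℝ) ^ 2) := (Real.sqrt_sq (by positivity)).symm
    rw [h7]
    refine (Real.sqrt_le_sqrt h4).trans (le_of_eq ?_)
    rw [Real.sqrt_mul' _ (by positivity), Real.sqrt_sq (by positivity)]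
  have htotal : (I.card : ℝ) * E ≤ S * (t * 2 ^ (k * k) * (Φ * (β * E)) + δ * Φ * E) := by
    calc (I.card : ℝ) * E = ((I.card * E : ℕ) : ℝ) := by push_cast; rfl
      _ ≤ ((∑ i, ((A1 i).card + (A2 i).card) : ℕ) : ℝ) := by exact_mod_cast hcard
      _ ≤ ∑ i : Fin S, (t * 2 ^ (k * k) * (Φ * (β * E)) + δ * Φ * E) := by
          push_cast
          exact Finset.sum_le_sum fun i _ => add_le_add (hpart1 i) (hpart2 i)
      _ = S * (t * 2 ^ (k * k) * (Φ * (β * E)) + δ * Φ * E) := by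
          rw [Finset.sum_const, Finset.card_univ, Fintype.card_fin, nsmul_eq_mul]
  have hfin : ((Φ : ℝ) - (M : ℝ) ^ 2 * Φ / n) * E ≤
      S * (t * 2 ^ (k * k) * (Φ * (β * E)) + δ * Φ * E) :=
    (mul_le_mul_of_nonneg_right hIcard hEpos.le).trans htotal
  have hprod : (0 : ℝ) < Φ * E := mul_pos hΦpos hEpos
  refine le_of_mul_le_mul_right ?_ hprod
  calc (1 - (M : ℝ) ^ 2 / n) * (Φ * E) = ((Φ : ℝ) - (M : ℝ) ^ 2 * Φ / n) * E := by ring
    _ ≤ _ := hfin
    _ = _ := by ring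

/-- The lower bound on the number of voters. -/
theorem main (k b : ℕ) (hb : 1 ≤ b) (hbk : 2 * b ≤ k) :
    ∃ C : ℝ, 0 < C ∧ ∃ n₀ : ℕ, ∀ n t s : ℕ, n₀ ≤ n → VoteDecidesClique n k b t s →
      (n : ℝ) ^ k ≤ C * Real.sqrt (t * Real.log n ^ b) ^ k * s := by
  obtain ⟨M, hM⟩ : ∃ M, M = Fintype.card (Lab k) := ⟨_, rfl⟩
  obtain ⟨K, hK⟩ : ∃ K, K = KK b := ⟨_, rfl⟩
  have hKpos : 0 < K := hK ▸ KK_pos hb
  have hKpos' : (0 : ℝ) < K := by exact_mod_cast hKpos
  have hk : 0 < k := by omega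
  set C1 : ℝ := k * K + 1 + M with hC1
  have hC1pos : 0 < C1 := by positivity
  set C2 : ℝ := 2 ^ (b * b) * b * C1 with hC2
  have hb' : (0 : ℝ) < b := by exact_mod_cast hb
  have hC2pos : 0 < C2 := by positivity
  set C3 : ℝ := 2 ^ (k * k) * b * C2 ^ b * 2 ^ (b * b) with hC3
  have hC3pos : 0 < C3 := by positivity
  set C5 : ℝ := 4 ^ k * ((b + 1) * (C2 ^ b * (b * b))) with hC5
  have hC5pos : 0 < C5 := by positivity
  refine ⟨2 * (C3 + Real.sqrt C5 ^ k), by positivity, max 3 (2 * M ^ 2), ?_⟩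
  intro n t s hn hdec
  have hn3 : 3 ≤ n := (le_max_left _ _).trans hn
  have hnM : 2 * M ^ 2 ≤ n := (le_max_right _ _).trans hn
  have hnpos : 0 < n := by omega
  have hn' : (0 : ℝ) < n := by exact_mod_cast hnpos
  have hlog : 1 ≤ Real.log n := by
    rw [← Real.log_exp 1]
    apply Real.log_le_log (Real.exp_pos 1)
    have h3 : (3 : ℝ) ≤ n := by exact_mod_cast hn3
    have := Real.exp_one_lt_d9
    linarith
  set L := Real.log n with hL
  have hLpos : 0 < L := by linarith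
  set R0 : ℕ := ⌈(k : ℝ) * K * L⌉₊ with hR0
  have hk' : (0 : ℝ) < k := by exact_mod_cast hk
  have hxpos : 0 < (k : ℝ) * K * L := by positivity
  have hR0pos : 0 < R0 := Nat.ceil_pos.2 hxpos
  have hcore := core hb hbk hnpos hdec R0 hR0pos
  rw [← hM, ← hK] at hcore
  -- the left side
  have hleft : (1 : ℝ) / 2 ≤ 1 - (M : ℝ) ^ 2 / n := by
    have h1 : (2 : ℝ) * (M : ℝ) ^ 2 ≤ n := by exact_mod_cast hnM
    have h2 : (M : ℝ) ^ 2 / n ≤ 1 / 2 := by
      rw [div_le_iff₀ hn']; linarith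
    linarith
  -- the decay
  have hq0 : 0 ≤ (1 - 1 / (K : ℝ)) ^ R0 := by
    apply pow_nonneg
    have : 1 / (K : ℝ) ≤ 1 := by
      rw [div_le_one hKpos']; exact_mod_cast hKpos
    linarith
  have hq : (1 - 1 / (K : ℝ)) ^ R0 ≤ 1 / (n : ℝ) ^ k := by
    have h0 : 0 ≤ 1 - 1 / (K : ℝ) := by
      have : 1 / (K : ℝ) ≤ 1 := by
        rw [div_le_one hKpos']; exact_mod_cast hKpos
      linarith
    have h1 : 1 - 1 / (K : ℝ) ≤ Real.exp (-(1 / (K : ℝ))) := by
      have := Real.add_one_le_exp (-(1 / (K : ℝ)))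
      linarith
    calc (1 - 1 / (K : ℝ)) ^ R0 ≤ Real.exp (-(1 / (K : ℝ))) ^ R0 := pow_le_pow_left₀ h0 h1 _
      _ = Real.exp (R0 * (-(1 / (K : ℝ)))) := by rw [← Real.exp_nat_mul]
      _ ≤ Real.exp (-(k * L)) := by
          apply Real.exp_le_exp.2
          have h2 : (k : ℝ) * K * L ≤ R0 := Nat.le_ceil _
          have h3 : (k : ℝ) * L ≤ R0 * (1 / (K : ℝ)) := by
            rw [mul_one_div, le_div_iff₀ hKpos']
            linarith
          linarith
      _ = 1 / (n : ℝ) ^ k := by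
          rw [Real.exp_neg, one_div, hL, ← Real.log_pow, Real.exp_log (by positivity)]
  -- the size of the hitting sets
  have hRle : ((R0 + M : ℕ) : ℝ) ≤ C1 * L := by
    push_cast
    have h1 : (R0 : ℝ) < (k : ℝ) * K * L + 1 := Nat.ceil_lt_add_one hxpos.le
    have h2 : (1 : ℝ) ≤ 1 * L := by linarith
    have h3 : (M : ℝ) ≤ M * L := by
      have : (0 : ℝ) ≤ M := by positivity
      nlinarith
    rw [hC1]
    linarith
  have htau : (tau b (R0 + M) : ℝ) ≤ C2 * L := by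
    unfold tau
    push_cast
    push_cast at hRle
    rw [hC2]
    calc (2 : ℝ) ^ (b * b) * ((R0 + M) * b) ≤ 2 ^ (b * b) * ((C1 * L) * b) := by gcongr
      _ = 2 ^ (b * b) * b * C1 * L := by ring
  have htaub : (tau b (R0 + M) : ℝ) ^ b ≤ C2 ^ b * L ^ b := by
    rw [← mul_pow]
    exact pow_le_pow_left₀ (by positivity) htau b
  have hLb : 1 ≤ L ^ b := one_le_pow₀ hlog
  obtain ⟨x, hx⟩ : ∃ x : ℝ, x = t * L ^ b := ⟨_, rfl⟩
  have hx0 : 0 ≤ x := by rw [hx]; positivity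
  rw [← hx]
  have hxs : x ≤ Real.sqrt x ^ k := by
    rcases Nat.eq_zero_or_pos t with ht | ht
    · have : x = 0 := by rw [hx, ht]; simp
      rw [this]
      positivity
    · have hx1 : 1 ≤ x := by
        rw [hx]
        have : (1 : ℝ) ≤ t := by exact_mod_cast ht
        nlinarith
      have hs1 : 1 ≤ Real.sqrt x := Real.one_le_sqrt.2 hx1
      calc x = Real.sqrt x ^ 2 := (Real.sq_sqrt hx0).symm
        _ ≤ Real.sqrt x ^ k := pow_le_pow_right₀ hs1 (by omega)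
  have hnk : (0 : ℝ) < (n : ℝ) ^ k := by positivity
  have hterm1 : (t : ℝ) * 2 ^ (k * k) * ((b * (tau b (R0 + M) : ℝ) ^ b * 2 ^ (b * b)) *
      (1 - 1 / (K : ℝ)) ^ R0) ≤ C3 * Real.sqrt x ^ k / (n : ℝ) ^ k := by
    calc (t : ℝ) * 2 ^ (k * k) * ((b * (tau b (R0 + M) : ℝ) ^ b * 2 ^ (b * b)) *
        (1 - 1 / (K : ℝ)) ^ R0)
        ≤ (t : ℝ) * 2 ^ (k * k) * ((b * (C2 ^ b * L ^ b) * 2 ^ (b * b)) *
          (1 / (n : ℝ) ^ k)) := by gcongr
      _ = C3 * x / (n : ℝ) ^ k := by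
          rw [hC3, hx]; ring
      _ ≤ C3 * Real.sqrt x ^ k / (n : ℝ) ^ k := by gcongr
  have hterm2 : Real.sqrt ((4 ^ k * (t * ((b + 1) * ((tau b (R0 + M) : ℝ) ^ b *
      (b * b)))) / (n : ℝ) ^ 2) ^ k) ≤ Real.sqrt C5 ^ k * Real.sqrt x ^ k / (n : ℝ) ^ k := by
    have h1 : (4 : ℝ) ^ k * (t * ((b + 1) * ((tau b (R0 + M) : ℝ) ^ b * (b * b)))) ≤ C5 * x := by
      calc (4 : ℝ) ^ k * (t * ((b + 1) * ((tau b (R0 + M) : ℝ) ^ b * (b * b))))
          ≤ 4 ^ k * (t * ((b + 1) * ((C2 ^ b * L ^ b) * (b * b)))) := by gcongr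
        _ = C5 * x := by rw [hC5, hx]; ring
    have h2 : (4 ^ k * (t * ((b + 1) * ((tau b (R0 + M) : ℝ) ^ b *
      (b * b)))) / (n : ℝ) ^ 2) ^ k ≤ (Real.sqrt C5 ^ k * Real.sqrt x ^ k / (n : ℝ) ^ k) ^ 2 := by
      calc (4 ^ k * (t * ((b + 1) * ((tau b (R0 + M) : ℝ) ^ b *
          (b * b)))) / (n : ℝ) ^ 2) ^ k ≤ (C5 * x / (n : ℝ) ^ 2) ^ k := by gcongr
        _ = (Real.sqrt C5 ^ 2 * Real.sqrt x ^ 2 / (n : ℝ) ^ 2) ^ k := by
            rw [Real.sq_sqrt hC5pos.le, Real.sq_sqrt hx0]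
        _ = (Real.sqrt C5 ^ k * Real.sqrt x ^ k / (n : ℝ) ^ k) ^ 2 := by
            rw [← mul_pow, ← div_pow, ← mul_pow, ← div_pow, ← pow_mul, ← pow_mul, mul_comm 2 k]
    calc _ ≤ Real.sqrt ((Real.sqrt C5 ^ k * Real.sqrt x ^ k / (n : ℝ) ^ k) ^ 2) :=
          Real.sqrt_le_sqrt h2
      _ = _ := Real.sqrt_sq (by positivity)
  have hs' : (0 : ℝ) ≤ s := by positivity
  have hmain : (1 : ℝ) / 2 ≤ s * ((C3 + Real.sqrt C5 ^ k) * Real.sqrt x ^ k / (n : ℝ) ^ k) := by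
    refine hleft.trans (hcore.trans (mul_le_mul_of_nonneg_left ?_ hs'))
    refine (add_le_add hterm1 hterm2).trans (le_of_eq ?_)
    ring
  have h2 := mul_le_mul_of_nonneg_right hmain hnk.le
  have h3 : s * ((C3 + Real.sqrt C5 ^ k) * Real.sqrt x ^ k / (n : ℝ) ^ k) * (n : ℝ) ^ k =
      s * ((C3 + Real.sqrt C5 ^ k) * Real.sqrt x ^ k) := by
    field_simp
  rw [h3] at h2
  calc (n : ℝ) ^ k = 2 * (1 / 2 * (n : ℝ) ^ k) := by ring
    _ ≤ 2 * (s * ((C3 + Real.sqrt C5 ^ k) * Real.sqrt x ^ k)) := by gcongr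
    _ = _ := by ring

end Pool.Agent.Lib.MP_678664_lc
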