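import Pool.Agent.Lib.MP_678664_lc.Count
import Pool.Agent.Lib.MP_678664_lc.Clique

set_option autoImplicit false

namespace Pool.Agent.Lib.MP_678664_lc

open Finset

variable {n k b : ℕ}

def tot (z : Fin k → Fin k → ZMod 2) : ZMod 2 := ∑ i, ∑ j ∈ univ.erase i, z i j

open Classical in
noncomputable def chi (z : Fin k → Fin k → ZMod 2) : ℝ := if tot z = 0 then 1 else -1

def flip (p q : Fin k) (z : Fin k → Fin k → ZMod 2) : Fin k → Fin k → ZMod 2 :=
  fun i j => z i j + if i = p ∧ j = q then 1 else 0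

lemma flip_tot {p q : Fin k} (hpq : p ≠ q) (z : Fin k → Fin k → ZMod 2) :
    tot (flip p q z) = tot z + 1 := by
  unfold tot flip
  have h1 : ∀ i : Fin k, ∑ j ∈ univ.erase i, (z i j + if i = p ∧ j = q then (1 : ZMod 2) else 0) =
      ∑ j ∈ univ.erase i, z i j + if i = p then 1 else 0 := by
    intro i
    rw [Finset.sum_add_distrib]
    congr 1
    by_cases hi : i = p
    · subst hi
      simp only [true_and, if_true]
      rw [Finset.sum_ite_eq' (univ.erase i) q (fun _ => (1 : ZMod 2)), if_pos]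
      exact Finset.mem_erase.2 ⟨Ne.symm hpq, mem_univ _⟩
    · simp [hi]
  rw [Finset.sum_congr rfl (fun i _ => h1 i), Finset.sum_add_distrib,
    Finset.sum_ite_eq' univ p (fun _ => (1 : ZMod 2)), if_pos (mem_univ _)]

lemma zmod2_cases (x : ZMod 2) : x = 0 ∨ x = 1 := by
  revert x; decide

lemma chi_flip {p q : Fin k} (hpq : p ≠ q) (z : Fin k → Fin k → ZMod 2) :
    chi (flip p q z) = - chi z := by
  unfold chi
  rw [flip_tot hpq]
  rcases zmod2_cases (tot z) with h | h
  · rw [h]; simp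
  · rw [h]
    have : (1 + 1 : ZMod 2) = 0 := by decide
    simp [this]

lemma flip_flip (p q : Fin k) (z : Fin k → Fin k → ZMod 2) : flip p q (flip p q z) = z := by
  unfold flip
  funext i j
  rw [add_assoc, CharTwo.add_self_eq_zero, add_zero]

lemma flip_ne (p q : Fin k) (z : Fin k → Fin k → ZMod 2) : flip p q z ≠ z := by
  intro h
  have := congrFun (congrFun h p) q
  unfold flip at this
  simp at this

lemma sum_chi_zero {p q : Fin k} (hpq : p ≠ q) (F : (Fin k → Fin k → ZMod 2) → ℝ)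
    (hF : ∀ z, F (flip p q z) = F z) : ∑ z, chi z * F z = 0 := by
  refine Finset.sum_involution (fun z _ => flip p q z) ?_ ?_ ?_ ?_
  · intro z _
    rw [chi_flip hpq, hF]; ring
  · intro z _ _
    exact flip_ne p q z
  · intro z _; exact mem_univ _
  · intro z _; exact flip_flip p q z

theorem voter_exists (hb : 0 < b) (hbk : 2 * b ≤ k) {t S : ℕ} (R : ℕ)
    (P : Fin S → Fin t → SimpleGraph (Fin n) → Prop) (f : Fin S → (Fin t → Prop) → ℝ)
    (𝒬 : Fin S → Fin t → Set (SimpleGraph (Fin n) → Prop))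
    (hloc : ∀ i j, ∀ Q ∈ 𝒬 i j, ∃ B : Finset (Fin n), B.card ≤ b ∧ LocalOn B Q)
    (hP : ∀ i j G, P i j G ↔ ∀ Q ∈ 𝒬 i j, Q G)
    (hdec : ∀ G : SimpleGraph (Fin n), ¬ G.CliqueFree k ↔ 0 < ∑ i, f i (fun j => P i j G))
    (φ : Lab k → Fin n) (hφ : Function.Injective φ) (e : Env n b) :
    ∃ i, (∃ j z, e ∈ badSet (𝒬 i j) b R φ z) ∨
      ∀ p q, p ≠ q → ∃ a a', (φ (p, a), φ (q, a')) ∈
        (univ : Finset (Fin t)).biUnion (fun j => HH (𝒬 i j) b R) := by
  classical
  have hk : 0 < k := by omega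
  set F : Fin S → (Fin k → Fin k → ZMod 2) → ℝ := fun i z => f i (fun j => P i j (gr φ z e))
    with hFdef
  have hex : ∃ i, ∑ z, chi z * F i z ≠ 0 := by
    by_contra hcon
    push Not at hcon
    have h0 : ∑ z, chi z * ∑ i, F i z = 0 := by
      have : ∑ i, ∑ z, chi z * F i z = 0 := Finset.sum_eq_zero fun i _ => hcon i
      rw [Finset.sum_comm] at this
      rw [← this]
      exact Finset.sum_congr rfl fun z _ => by rw [Finset.mul_sum]
    have hpos : 0 < ∑ z, chi z * ∑ i, F i z := by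
      apply Finset.sum_pos'
      · intro z _
        by_cases hz : tot z = 0
        · have h1 := (hdec (gr φ z e)).1 (clique_of_sum hk hφ e hz)
          have h2 : chi z = 1 := by unfold chi; rw [if_pos hz]
          rw [h2, one_mul]
          exact h1.le
        · have h1 : ¬ (0 < ∑ i, f i (fun j => P i j (gr φ z e))) := by
            rw [← hdec]
            intro h
            exact hz (sum_of_clique hb hbk e h)
          have h2 : chi z = -1 := by unfold chi; rw [if_neg hz]
          rw [h2]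
          have h3 : ∑ i, F i z ≤ 0 := not_lt.1 h1
          linarith
      · refine ⟨0, mem_univ _, ?_⟩
        have hz : tot (0 : Fin k → Fin k → ZMod 2) = 0 := by unfold tot; simp
        have h1 := (hdec (gr φ 0 e)).1 (clique_of_sum hk hφ e hz)
        have h2 : chi (0 : Fin k → Fin k → ZMod 2) = 1 := by unfold chi; rw [if_pos hz]
        rw [h2, one_mul]
        exact h1
    exact hpos.ne' h0
  obtain ⟨i, hi⟩ := hex
  refine ⟨i, ?_⟩
  by_cases hbad : ∃ j z, e ∈ badSet (𝒬 i j) b R φ z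
  · exact Or.inl hbad
  · right
    intro p q hpq
    have hdiff : ∃ z, F i (flip p q z) ≠ F i z := by
      by_contra hcon
      push Not at hcon
      exact hi (sum_chi_zero hpq (F i) hcon)
    obtain ⟨z, hz⟩ := hdiff
    have hj : ∃ j, ¬ (P i j (gr φ (flip p q z) e) ↔ P i j (gr φ z e)) := by
      by_contra hcon
      push Not at hcon
      apply hz
      simp only [hFdef]
      congr 1
      funext j
      exact propext (hcon j)
    obtain ⟨j, hj⟩ := hj
    -- two twists which agree off `(p, q)`, the test accepts the first and rejects the second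
    obtain ⟨z0, z1, h01, hp0, hp1⟩ : ∃ z0 z1 : Fin k → Fin k → ZMod 2,
        (∀ i' j', ¬ (i' = p ∧ j' = q) → z0 i' j' = z1 i' j') ∧
        P i j (gr φ z0 e) ∧ ¬ P i j (gr φ z1 e) := by
      have hfl : ∀ i' j', ¬ (i' = p ∧ j' = q) → flip p q z i' j' = z i' j' := fun i' j' h => by
        unfold flip; rw [if_neg h, add_zero]
      by_cases h : P i j (gr φ z e)
      · refine ⟨z, flip p q z, fun i' j' h' => (hfl i' j' h').symm, h, ?_⟩
        intro h'
        exact hj ⟨fun _ => h, fun _ => h'⟩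
      · refine ⟨flip p q z, z, hfl, ?_, h⟩
        by_contra h'
        exact hj ⟨fun x => absurd x h', fun x => absurd x h⟩
    rw [hP] at hp0 hp1
    have hgood : ¬ Bad (𝒬 i j) b R (gr φ z0 e) := by
      intro h
      apply hbad
      refine ⟨j, z0, ?_⟩
      unfold badSet
      simp only [mem_filter, mem_univ, true_and]
      exact ⟨hp0, h⟩
    have hX := chain (b := b)
      (𝒢 := fun A => ¬ ((∃ a, φ (p, a) ∈ A) ∧ ∃ a', φ (q, a') ∈ A)) (hloc i j)
      (G0 := gr φ z0 e) (G1 := gr φ z1 e) ?_ hp0 hp1 hgood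
    · obtain ⟨l, hl, A, hA, hnot⟩ := hX
      rw [not_not] at hnot
      obtain ⟨⟨a, ha⟩, a', ha'⟩ := hnot
      refine ⟨a, a', ?_⟩
      rw [Finset.mem_biUnion]
      exact ⟨j, mem_univ _, mem_HH hl hA ha ha'⟩
    · intro A hA u hu v hv
      apply gr_twist h01
      · rintro ⟨⟨a, rfl⟩, a', rfl⟩
        exact hA ⟨⟨a, hu⟩, a', hv⟩
      · rintro ⟨⟨a, rfl⟩, a', rfl⟩
        exact hA ⟨⟨a, hv⟩, a', hu⟩

end Pool.Agent.Lib.MP_678664_lc
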